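import Mathlib

set_option autoImplicit false

/-!
Polynomials with pairwise coprime leading monomials: every nonzero element of the ideal they
generate has a leading monomial divisible by one of theirs.
-/

namespace Pool.Agent.TH211.AF

open MvPolynomial

open scoped MonomialOrder

variable {σ : Type} {K : Type} [Field K] {ι : Type} [Fintype ι]

lemma toSyn_add_lt {m : MonomialOrder σ} {a b c : σ →₀ ℕ} (h : m.toSyn a < m.toSyn b) :
    m.toSyn (a + c) < m.toSyn (b + c) := by
  rw [map_add, map_add]
  exact add_lt_add_left h _

lemma add_le_of_disjoint {a b c : σ →₀ ℕ} (h : Disjoint a.support b.support) (ha : a ≤ c)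
    (hb : b ≤ c) : a + b ≤ c := by
  intro i
  rw [Finsupp.add_apply]
  by_cases hi : i ∈ a.support
  · have : i ∉ b.support := Finset.disjoint_left.mp h hi
    rw [Finsupp.notMem_support_iff.mp this, add_zero]
    exact ha i
  · rw [Finsupp.notMem_support_iff.mp hi, zero_add]
    exact hb i

/-- one reduction step -/
lemma rep_step (m : MonomialOrder σ) (b : ι → MvPolynomial σ K) (hb : ∀ i, b i ≠ 0)
    (hcop : ∀ i j, i ≠ j → Disjoint (m.degree (b i)).support (m.degree (b j)).support)
    (h : ι → MvPolynomial σ K) (D : σ →₀ ℕ)
    (hD : ∀ i, h i ≠ 0 → m.toSyn (m.degree (h i) + m.degree (b i)) ≤ m.toSyn D)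
    (h0 : (∑ i, h i * b i).coeff D = 0) :
    ∃ h' : ι → MvPolynomial σ K, ∑ i, h' i * b i = ∑ i, h i * b i ∧
      ∀ i, h' i ≠ 0 → m.toSyn (m.degree (h' i) + m.degree (b i)) < m.toSyn D := by
  classical
  set T : Finset ι := Finset.univ.filter fun i => h i ≠ 0 ∧ m.degree (h i) + m.degree (b i) = D
    with hT
  have hTm : ∀ i, i ∈ T ↔ h i ≠ 0 ∧ m.degree (h i) + m.degree (b i) = D := by
    intro i; simp [hT]
  have hnT : ∀ i, i ∉ T → h i ≠ 0 → m.toSyn (m.degree (h i) + m.degree (b i)) < m.toSyn D := by
    intro i hi hi0
    refine lt_of_le_of_ne (hD i hi0) ?_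
    intro he
    exact hi ((hTm i).mpr ⟨hi0, m.toSyn.injective he⟩)
  by_cases hTe : T = ∅
  · refine ⟨h, rfl, fun i hi => hnT i ?_ hi⟩
    rw [hTe]; exact Finset.notMem_empty i
  obtain ⟨j, hj⟩ := Finset.nonempty_iff_ne_empty.mpr hTe
  have hjT := (hTm j).mp hj
  -- the coefficient relation
  have hcoef : ∀ i, (h i * b i).coeff D =
      if i ∈ T then m.leadingCoeff (h i) * m.leadingCoeff (b i) else 0 := by
    intro i
    split_ifs with hi
    · rw [← ((hTm i).mp hi).2]
      exact m.coeff_mul_of_degree_add
    · by_cases hi0 : h i = 0
      · rw [hi0, zero_mul, coeff_zero]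
      · apply m.coeff_eq_zero_of_lt
        rw [m.degree_mul hi0 (hb i)]
        exact hnT i hi hi0
  have hsum : ∑ i ∈ T, m.leadingCoeff (h i) * m.leadingCoeff (b i) = 0 := by
    rw [coeff_sum] at h0
    rw [Finset.sum_congr rfl (fun i _ => hcoef i)] at h0
    rw [Finset.sum_ite_mem, Finset.univ_inter] at h0
    exact h0
  have hlcb : m.leadingCoeff (b j) ≠ 0 := m.leadingCoeff_ne_zero_iff.mpr (hb j)
  -- divisibility
  have hle : ∀ i, i ∈ T → i ≠ j → m.degree (b i) + m.degree (b j) ≤ D := by
    intro i hi hij
    apply add_le_of_disjoint (hcop i j hij)
    · rw [← ((hTm i).mp hi).2]; exact le_add_self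
    · rw [← hjT.2]; exact le_add_self
  let γ : ι → (σ →₀ ℕ) := fun i => D - (m.degree (b i) + m.degree (b j))
  have hγ : ∀ i, i ∈ T → i ≠ j → γ i + (m.degree (b i) + m.degree (b j)) = D := by
    intro i hi hij
    exact tsub_add_cancel_of_le (hle i hi hij)
  let μ : ι → MvPolynomial σ K := fun i =>
    if i ∈ T ∧ i ≠ j then monomial (γ i) (m.leadingCoeff (h i) / m.leadingCoeff (b j)) else 0
  let h' : ι → MvPolynomial σ K := fun i =>
    if i = j then h j + ∑ k, μ k * b k else h i - μ i * b j
  have hμj : μ j = 0 := by simp [μ]
  refine ⟨h', ?_, ?_⟩
  · have e1 : ∀ i, h' i * b i = h i * b i - μ i * b j * b i +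
        (if i = j then (∑ k, μ k * b k) * b j else 0) := by
      intro i
      by_cases hij : i = j
      · subst hij
        simp only [h', if_true, hμj]
        ring
      · simp only [h', hij, if_false]
        ring
    rw [Finset.sum_congr rfl (fun i _ => e1 i), Finset.sum_add_distrib, Finset.sum_sub_distrib,
      Finset.sum_ite_eq' Finset.univ j]
    simp only [Finset.mem_univ, if_true]
    have e2 : ∑ i, μ i * b j * b i = (∑ k, μ k * b k) * b j := by
      rw [Finset.sum_mul]
      apply Finset.sum_congr rfl
      intro i _; ring
    rw [e2]; ring
  · intro i hi0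
    by_cases hij : i = j
    · subst hij
      -- the special index
      have hbound : ∀ e ∈ (h' i).support, m.toSyn e ≤ m.toSyn (m.degree (h i)) := by
        intro e he
        have hdeg : m.toSyn (m.degree (h' i)) ≤ m.toSyn (m.degree (h i)) := by
          simp only [h', if_true]
          refine m.degree_add_le.trans (sup_le le_rfl ?_)
          refine m.degree_sum_le.trans ?_
          apply Finset.sup_le
          intro k _
          by_cases hk : k ∈ T ∧ k ≠ i
          · refine m.degree_mul_le.trans ?_
            have h1 : m.toSyn (m.degree (μ k)) ≤ m.toSyn (γ k) := by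
              simp only [μ, hk, and_self, if_true, ne_eq, not_false_eq_true]
              exact m.degree_monomial_le _
            rw [map_add]
            calc m.toSyn (m.degree (μ k)) + m.toSyn (m.degree (b k))
                ≤ m.toSyn (γ k) + m.toSyn (m.degree (b k)) := by gcongr
              _ = m.toSyn (γ k + m.degree (b k)) := (map_add _ _ _).symm
              _ = m.toSyn (m.degree (h i)) := by
                congr 1
                have h2 := hγ k hk.1 hk.2
                have h3 := hjT.2
                rw [← add_assoc] at h2
                exact add_right_cancel (h2.trans h3.symm)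
          · have : μ k = 0 := by
              simp only [μ, if_neg hk]
            rw [this, zero_mul, m.degree_zero]
            simp
        exact (m.le_degree he).trans hdeg
      have hzero : (h' i).coeff (m.degree (h i)) = 0 := by
        simp only [h', if_true, coeff_add, coeff_sum]
        have e3 : ∀ k, (μ k * b k).coeff (m.degree (h i)) =
            if k ∈ T ∧ k ≠ i then (m.leadingCoeff (h k) / m.leadingCoeff (b i)) *
              m.leadingCoeff (b k) else 0 := by
          intro k
          by_cases hk : k ∈ T ∧ k ≠ i
          · have h2 : m.degree (h i) = γ k + m.degree (b k) := by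
              have h2 := hγ k hk.1 hk.2
              have h3 := hjT.2
              rw [← add_assoc] at h2
              exact (add_right_cancel (h2.trans h3.symm)).symm
            rw [if_pos hk, h2]
            simp only [μ, if_pos hk]
            rw [coeff_monomial_mul]
            rfl
          · rw [if_neg hk]
            have : μ k = 0 := by
              simp only [μ, if_neg hk]
            rw [this, zero_mul, coeff_zero]
        rw [Finset.sum_congr rfl (fun k _ => e3 k)]
        have e4 : (∑ k, if k ∈ T ∧ k ≠ i then (m.leadingCoeff (h k) / m.leadingCoeff (b i)) *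
              m.leadingCoeff (b k) else 0) =
            (∑ k ∈ T, m.leadingCoeff (h k) * m.leadingCoeff (b k)) / m.leadingCoeff (b i) -
              m.leadingCoeff (h i) := by
          rw [← Finset.sum_filter]
          have e5 : Finset.univ.filter (fun k => k ∈ T ∧ k ≠ i) = T.erase i := by
            ext k; simp [and_comm]
          rw [e5, ← Finset.sum_erase_add T _ hj, add_div, mul_div_assoc, div_self hlcb, mul_one,
            add_sub_cancel_right, Finset.sum_div]
          apply Finset.sum_congr rfl
          intro k _; ring
        rw [e4, hsum]
        simp [MonomialOrder.leadingCoeff]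
      have hmem : m.degree (h' i) ∈ (h' i).support := m.degree_mem_support hi0
      have hlt : m.toSyn (m.degree (h' i)) < m.toSyn (m.degree (h i)) := by
        refine lt_of_le_of_ne (hbound _ hmem) ?_
        intro he
        have := m.toSyn.injective he
        rw [this, mem_support_iff] at hmem
        exact hmem hzero
      have := toSyn_add_lt (c := m.degree (b i)) hlt
      rwa [hjT.2] at this
    · by_cases hiT : i ∈ T
      · have hiT' := (hTm i).mp hiT
        have heq : m.degree (h i) = γ i + m.degree (b j) := by
          have h2 := hγ i hiT hij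
          have h3 := hiT'.2
          rw [add_comm (m.degree (b i)), ← add_assoc] at h2
          exact (add_right_cancel (h2.trans h3.symm)).symm
        have hh' : h' i = h i - μ i * b j := by simp only [h', hij, if_false]
        have hμ : μ i = monomial (γ i) (m.leadingCoeff (h i) / m.leadingCoeff (b j)) := by
          simp only [μ, hiT, hij, ne_eq, not_false_eq_true, and_self, if_true]
        have hdeg : m.toSyn (m.degree (h' i)) ≤ m.toSyn (m.degree (h i)) := by
          rw [hh']
          refine m.degree_sub_le.trans (sup_le le_rfl ?_)
          refine m.degree_mul_le.trans ?_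
          rw [heq, map_add, map_add, hμ]
          gcongr
          exact m.degree_monomial_le _
        have hzero : (h' i).coeff (m.degree (h i)) = 0 := by
          rw [hh', coeff_sub, hμ]
          have : (monomial (γ i) (m.leadingCoeff (h i) / m.leadingCoeff (b j)) * b j).coeff
              (m.degree (h i)) = m.leadingCoeff (h i) := by
            rw [heq, coeff_monomial_mul]
            change m.leadingCoeff (h i) / m.leadingCoeff (b j) * m.leadingCoeff (b j) = _
            field_simp
          rw [this]
          simp [MonomialOrder.leadingCoeff]
        have hmem : m.degree (h' i) ∈ (h' i).support := m.degree_mem_support hi0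
        have hlt : m.toSyn (m.degree (h' i)) < m.toSyn (m.degree (h i)) := by
          refine lt_of_le_of_ne hdeg ?_
          intro he
          have := m.toSyn.injective he
          rw [this, mem_support_iff] at hmem
          exact hmem hzero
        have := toSyn_add_lt (c := m.degree (b i)) hlt
        rwa [hiT'.2] at this
      · have hh' : h' i = h i := by
          have : μ i = 0 := by simp only [μ, hiT, false_and, if_false]
          simp only [h', hij, if_false, this, zero_mul, sub_zero]
        rw [hh'] at hi0 ⊢
        exact hnT i hiT hi0

/-- Every nonzero element of an ideal generated by polynomials with pairwise coprime leading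
monomials has a leading monomial divisible by one of these. -/
theorem exists_degree_le_of_mem_span (m : MonomialOrder σ) (b : ι → MvPolynomial σ K)
    (hb : ∀ i, b i ≠ 0)
    (hcop : ∀ i j, i ≠ j → Disjoint (m.degree (b i)).support (m.degree (b j)).support)
    (r : MvPolynomial σ K) (hr : r ∈ Ideal.span (Set.range b)) (hr0 : r ≠ 0) :
    ∃ i, m.degree (b i) ≤ m.degree r := by
  classical
  rw [Ideal.mem_span_range_iff_exists_fun] at hr
  obtain ⟨h, hh⟩ := hr
  have key : ∀ δ : m.syn, ∀ h : ι → MvPolynomial σ K, ∑ i, h i * b i = r →
      (∀ i, h i ≠ 0 → m.toSyn (m.degree (h i) + m.degree (b i)) ≤ δ) →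
      ∃ i, m.degree (b i) ≤ m.degree r := by
    intro δ
    induction δ using WellFoundedLT.induction with
    | ind δ ih =>
      intro h hh hδ
      obtain ⟨D, rfl⟩ := m.toSyn.surjective δ
      by_cases h0 : r.coeff D = 0
      · rw [← hh] at h0
        obtain ⟨h', hh', hδ'⟩ := rep_step m b hb hcop h D hδ h0
        by_cases hall : ∀ i, h' i = 0
        · exfalso
          apply hr0
          rw [← hh, ← hh']
          apply Finset.sum_eq_zero
          intro i _
          rw [hall i, zero_mul]
        · push Not at hall
          set S : Finset ι := Finset.univ.filter fun i => h' i ≠ 0 with hS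
          have hSne : S.Nonempty := by
            obtain ⟨i, hi⟩ := hall
            exact ⟨i, by simp [hS, hi]⟩
          refine ih (S.sup' hSne fun i => m.toSyn (m.degree (h' i) + m.degree (b i))) ?_ h'
            (hh'.trans hh) ?_
          · rw [Finset.sup'_lt_iff]
            intro i hi
            exact hδ' i (by simpa [hS] using hi)
          · intro i hi
            exact Finset.le_sup' (fun i => m.toSyn (m.degree (h' i) + m.degree (b i)))
              (by simp [hS, hi] : i ∈ S)
      · -- the coefficient at `D` is nonzero
        have h1 : ∃ i, (h i * b i).coeff D ≠ 0 := by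
          by_contra hcon
          push Not at hcon
          apply h0
          rw [← hh, coeff_sum]
          exact Finset.sum_eq_zero fun i _ => hcon i
        obtain ⟨i, hi⟩ := h1
        have hi0 : h i ≠ 0 := by
          intro hz; rw [hz, zero_mul, coeff_zero] at hi; exact hi rfl
        have hDle : ∀ k, h k ≠ 0 → m.toSyn (m.degree (h k) + m.degree (b k)) ≤ m.toSyn D := hδ
        have h2 : m.toSyn D ≤ m.toSyn (m.degree (h i * b i)) :=
          m.le_degree (mem_support_iff.mpr hi)
        rw [m.degree_mul hi0 (hb i)] at h2
        have h3 : D = m.degree (h i) + m.degree (b i) :=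
          m.toSyn.injective (le_antisymm h2 (hDle i hi0))
        have h4 : m.toSyn (m.degree r) ≤ m.toSyn D := by
          rw [← hh]
          refine m.degree_sum_le.trans ?_
          apply Finset.sup_le
          intro k _
          by_cases hk : h k = 0
          · rw [hk, zero_mul, m.degree_zero]; simp
          · rw [m.degree_mul hk (hb k)]
            exact hDle k hk
        have h5 : m.toSyn D ≤ m.toSyn (m.degree r) := m.le_degree (mem_support_iff.mpr h0)
        have h6 : m.degree r = D := m.toSyn.injective (le_antisymm h4 h5)
        refine ⟨i, ?_⟩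
        rw [h6, h3]
        exact le_add_self
  obtain ⟨δ, hδ⟩ : ∃ δ : m.syn, ∀ i, m.toSyn (m.degree (h i) + m.degree (b i)) ≤ δ := by
    refine ⟨Finset.univ.sup fun i => m.toSyn (m.degree (h i) + m.degree (b i)), fun i => ?_⟩
    exact Finset.le_sup (f := fun i => m.toSyn (m.degree (h i) + m.degree (b i)))
      (Finset.mem_univ i)
  exact key δ h hh fun i _ => hδ i

end Pool.Agent.TH211.AF
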