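import Pool.Agent.TH211.AF.Univ

set_option autoImplicit false

namespace Pool.Agent.TH211.AF

open MvPolynomial

open scoped MonomialOrder

variable {n d : ℕ}

lemma form_isHomogeneous {R : Type} [CommRing R] (a : Expo n d → R) :
    (form a).IsHomogeneous d := by
  unfold form
  apply IsHomogeneous.sum
  intro α _
  apply isHomogeneous_monomial
  rw [Finsupp.degree_eq_sum]
  exact expo_sum α

lemma d1_isHomogeneous {R : Type} [CommRing R] (a : Expo n d → R) (i : Fin n) :
    (pderiv i (form a)).IsHomogeneous (d - 1) := (form_isHomogeneous a).pderiv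

/-- The product of a variable with the Hessian lies in the Jacobian ideal. -/
lemma X_mul_hess_mem {R : Type} [CommRing R] (a : Expo n d → R) (j : Fin n) :
    X j * hess a ∈ jac a := by
  set H : Matrix (Fin n) (Fin n) (MvPolynomial (Fin n) R) :=
    Matrix.of fun i j : Fin n => pderiv i (pderiv j (form a)) with hH
  have h1 : Matrix.vecMul (fun i => (X i : MvPolynomial (Fin n) R)) H =
      fun i => (d - 1) • pderiv i (form a) := by
    funext i
    rw [Matrix.vecMul, dotProduct]
    exact (d1_isHomogeneous a i).sum_X_mul_pderiv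
  have h2 : Matrix.vecMul (Matrix.vecMul (fun i => (X i : MvPolynomial (Fin n) R)) H) H.adjugate =
      H.det • fun i => (X i : MvPolynomial (Fin n) R) := by
    rw [Matrix.vecMul_vecMul, Matrix.mul_adjugate, Matrix.vecMul_smul, Matrix.vecMul_one]
  have h3 := congrFun h2 j
  rw [h1] at h3
  have h4 : X j * hess a = (Matrix.vecMul (fun i => (d - 1) • pderiv i (form a)) H.adjugate) j := by
    rw [h3, Pi.smul_apply, smul_eq_mul, mul_comm]
    rfl
  rw [h4, Matrix.vecMul, dotProduct]
  apply Ideal.sum_mem
  intro i _
  apply Ideal.mul_mem_right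
  rw [nsmul_eq_mul]
  apply Ideal.mul_mem_left
  exact Ideal.subset_span ⟨i, rfl⟩

/-- The Jacobian ideal of the universal form in the big ring. -/
noncomputable def IQ (n d : ℕ) : Ideal (CQ n d) :=
  Ideal.span (Set.range fun i : Fin n => eQ n d (pderiv i (form (X : Expo n d → CA n d))))

lemma mem_jac_iff (x : CP n d) : x ∈ jac (X : Expo n d → CA n d) ↔ eQ n d x ∈ IQ n d := by
  unfold jac IQ
  rw [Ideal.mem_span_range_iff_exists_fun, Ideal.mem_span_range_iff_exists_fun]
  constructor
  · rintro ⟨c, hc⟩
    refine ⟨fun i => eQ n d (c i), ?_⟩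
    rw [← hc, map_sum]
    exact Finset.sum_congr rfl fun i _ => (map_mul _ _ _).symm
  · rintro ⟨c, hc⟩
    refine ⟨fun i => (eQ n d).symm (c i), ?_⟩
    apply (eQ n d).injective
    rw [← hc, map_sum]
    apply Finset.sum_congr rfl
    intro i _
    rw [map_mul, AlgEquiv.apply_symm_apply]

lemma D1_inl (i k : Fin n) : D1 n d i (Sum.inl k) = if i = k then d - 1 else 0 := by
  classical
  unfold D1
  rw [ex_inl, Finsupp.single_apply]

lemma D1_inr (i : Fin n) (α : Expo n d) :
    D1 n d i (Sum.inr α) = Finsupp.single (sp i) 1 α := rfl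

lemma D1_disjoint (hd : d ≠ 0) {i j : Fin n} (hij : i ≠ j) :
    Disjoint (D1 n d i).support (D1 n d j).support := by
  classical
  rw [Finset.disjoint_left]
  rintro (k | α) h1 h2
  · rw [Finsupp.mem_support_iff, D1_inl] at h1 h2
    have e1 : i = k := by by_contra h; rw [if_neg h] at h1; exact h1 rfl
    have e2 : j = k := by by_contra h; rw [if_neg h] at h2; exact h2 rfl
    exact hij (e1.trans e2.symm)
  · rw [Finsupp.mem_support_iff, D1_inr, Finsupp.single_apply] at h1 h2
    have e1 : sp i = α := by by_contra h; rw [if_neg h] at h1; exact h1 rfl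
    have e2 : sp j = α := by by_contra h; rw [if_neg h] at h2; exact h2 rfl
    exact hij (sp_inj hd (e1.trans e2.symm))

lemma DH_inl (k : Fin n) : DH n d (Sum.inl k) = d - 2 := by
  classical
  unfold DH D2
  rw [Finsupp.finsetSum_apply]
  simp only [ex_inl, Finsupp.single_apply]
  simp

/-- Gröbner property -/
lemma exists_D1_le (hd : 1 ≤ d) (r : CQ n d) (hr : r ∈ IQ n d) (hr0 : r ≠ 0) :
    ∃ i, D1 n d i ≤ (mo n d).degree r := by
  obtain ⟨i, hi⟩ := exists_degree_le_of_mem_span (mo n d)
    (fun i : Fin n => eQ n d (pderiv i (form (X : Expo n d → CA n d))))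
    (d1_ne_zero hd) (by
      intro i j hij
      rw [degree_d1 hd, degree_d1 hd]
      exact D1_disjoint (by omega) hij) r hr hr0
  rw [degree_d1 hd] at hi
  exact ⟨i, hi⟩

lemma DH_le_of {M : (Fin n ⊕ Expo n d) →₀ ℕ} (hd : d ≠ 0)
    (h : ∀ j : Fin n, d - 2 ≤ M (Sum.inl j) ∧ 1 ≤ M (Sum.inr (sp j))) : DH n d ≤ M := by
  classical
  rintro (k | α)
  · rw [DH_inl]; exact (h k).1
  · unfold DH D2
    rw [Finsupp.finsetSum_apply]
    simp only [ex_inr]
    by_cases hα : ∃ k, sp k = α
    · obtain ⟨k, rfl⟩ := hα
      rw [Finset.sum_eq_single k]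
      · rw [Finsupp.single_eq_same]; exact (h k).2
      · intro j _ hj
        rw [Finsupp.single_apply, if_neg]
        intro he; exact hj (sp_inj hd he)
      · intro hk; exact absurd (Finset.mem_univ k) hk
    · rw [Finset.sum_eq_zero]
      · exact Nat.zero_le _
      · intro j _
        rw [Finsupp.single_apply, if_neg]
        intro he; exact hα ⟨j, he⟩

/-- In the big ring: an element whose products with all the variables `z_j` lie in the Jacobian
ideal is a multiple of the Hessian modulo that ideal. -/
lemma colon_Q (hn : 1 ≤ n) (hd : 2 ≤ d) (x : CQ n d)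
    (hx : ∀ j : Fin n, X (Sum.inl j) * x ∈ IQ n d) :
    ∃ q y : CQ n d, y ∈ IQ n d ∧ x = y + q * eQ n d (hess (X : Expo n d → CA n d)) := by
  have key : ∀ δ : (mo n d).syn, ∀ x : CQ n d, (mo n d).toSyn ((mo n d).degree x) = δ →
      (∀ j : Fin n, X (Sum.inl j) * x ∈ IQ n d) →
      ∃ q y : CQ n d, y ∈ IQ n d ∧ x = y + q * eQ n d (hess (X : Expo n d → CA n d)) := by
    intro δ
    induction δ using WellFoundedLT.induction with
    | ind δ ih =>
      intro x hδ hx
      by_cases hx0 : x = 0
      · exact ⟨0, 0, Ideal.zero_mem _, by rw [hx0]; ring⟩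
      by_cases hA : ∃ i, D1 n d i ≤ (mo n d).degree x
      · obtain ⟨i, hi⟩ := hA
        rw [← degree_d1 (by omega)] at hi
        obtain ⟨q, hq⟩ := reduce_exists (mo n d) x _ (d1_ne_zero (by omega) i) hi
        have hmem : q * eQ n d (pderiv i (form (X : Expo n d → CA n d))) ∈ IQ n d :=
          Ideal.mul_mem_left _ _ (Ideal.subset_span ⟨i, rfl⟩)
        rcases hq with hq | hq
        · exact ⟨0, _, hmem, by rw [zero_mul, add_zero]; exact sub_eq_zero.mp hq⟩
        · obtain ⟨q', y, hy, he⟩ := ih _ (by rw [← hδ]; exact hq) _ rfl (by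
            intro j
            rw [mul_sub]
            exact Ideal.sub_mem _ (hx j) (Ideal.mul_mem_left _ _ hmem))
          refine ⟨q', y + q * eQ n d (pderiv i (form (X : Expo n d → CA n d))),
            Ideal.add_mem _ hy hmem, ?_⟩
          linear_combination he
      · push Not at hA
        have hB : DH n d ≤ (mo n d).degree x := by
          apply DH_le_of (by omega)
          intro j
          obtain ⟨i, hi⟩ := exists_D1_le (by omega) _ (hx j)
            (mul_ne_zero (X_ne_zero _) hx0)
          rw [(mo n d).degree_mul (X_ne_zero _) hx0, (mo n d).degree_X] at hi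
          have hij : i = j := by
            by_contra hij
            apply hA i
            rintro (k | α)
            · have h1 := hi (Sum.inl k)
              rw [Finsupp.add_apply] at h1
              by_cases hk : j = k
              · subst hk
                rw [D1_inl, if_neg hij]
                exact Nat.zero_le _
              · rw [Finsupp.single_eq_of_ne (by
                  intro h; exact hk (Sum.inl.inj h).symm), zero_add] at h1
                exact h1
            · have h1 := hi (Sum.inr α)
              rw [Finsupp.add_apply, Finsupp.single_eq_of_ne (by simp), zero_add] at h1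
              exact h1
          subst hij
          have h1 := hi (Sum.inl i)
          have h2 := hi (Sum.inr (sp i))
          rw [Finsupp.add_apply, D1_inl, if_pos rfl, Finsupp.single_eq_same] at h1
          rw [Finsupp.add_apply, D1_inr, Finsupp.single_eq_same,
            Finsupp.single_eq_of_ne (by simp), zero_add] at h2
          exact ⟨by omega, h2⟩
        rw [← degree_hess hn hd] at hB
        obtain ⟨q, hq⟩ := reduce_exists (mo n d) x _ (hess_ne_zero hn hd) hB
        rcases hq with hq | hq
        · exact ⟨q, 0, Ideal.zero_mem _, by rw [zero_add]; exact sub_eq_zero.mp hq⟩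
        · obtain ⟨q', y, hy, he⟩ := ih _ (by rw [← hδ]; exact hq) _ rfl (by
            intro j
            rw [mul_sub]
            apply Ideal.sub_mem _ (hx j)
            have h1 := (mem_jac_iff _).mp (X_mul_hess_mem (X : Expo n d → CA n d) j)
            rw [map_mul, eQ_X] at h1
            rw [mul_left_comm]
            exact Ideal.mul_mem_left _ _ h1)
          refine ⟨q' + q, y, hy, ?_⟩
          linear_combination he
  exact key _ x rfl hx

/-- `(J : (z)) = J + (Hess)` for the Jacobian ideal `J` of the universal form. -/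
theorem colon_hess (hn : 1 ≤ n) (hd : 2 ≤ d) (x : CP n d)
    (hx : ∀ j : Fin n, X j * x ∈ jac (X : Expo n d → CA n d)) :
    ∃ q y : CP n d, y ∈ jac (X : Expo n d → CA n d) ∧ x = y + q * hess (X : Expo n d → CA n d) := by
  obtain ⟨q, y, hy, he⟩ := colon_Q hn hd (eQ n d x) (by
    intro j
    have := (mem_jac_iff _).mp (hx j)
    rwa [map_mul, eQ_X] at this)
  refine ⟨(eQ n d).symm q, (eQ n d).symm y, ?_, ?_⟩
  · rw [mem_jac_iff, AlgEquiv.apply_symm_apply]; exact hy
  · apply (eQ n d).injective
    rw [map_add, map_mul, AlgEquiv.apply_symm_apply, AlgEquiv.apply_symm_apply]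
    exact he

/-- No nonzero constant multiple of the Hessian of the universal form lies in its Jacobian
ideal. -/
theorem C_mul_hess_mem (hn : 1 ≤ n) (hd : 2 ≤ d) (q : CA n d)
    (h : C q * hess (X : Expo n d → CA n d) ∈ jac (X : Expo n d → CA n d)) : q = 0 := by
  classical
  by_contra hq
  rw [mem_jac_iff, map_mul, eQ_C] at h
  have hq' : (rename Sum.inr q : CQ n d) ≠ 0 := by
    intro h0
    exact hq (rename_injective _ Sum.inr_injective (by rw [h0, map_zero]))
  obtain ⟨i, hi⟩ := exists_D1_le (by omega) _ h (mul_ne_zero hq' (hess_ne_zero hn hd))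
  rw [(mo n d).degree_mul hq' (hess_ne_zero hn hd), degree_hess hn hd] at hi
  have h1 := hi (Sum.inl i)
  rw [Finsupp.add_apply, D1_inl, if_pos rfl, DH_inl] at h1
  have h2 : (mo n d).degree (rename Sum.inr q : CQ n d) (Sum.inl i) = 0 := by
    have h3 := (mo n d).degree_mem_support hq'
    rw [support_rename_of_injective Sum.inr_injective, Finset.mem_image] at h3
    obtain ⟨t, -, ht⟩ := h3
    rw [← ht]
    apply Finsupp.mapDomain_of_notMem_range
    simp
  rw [h2] at h1
  omega

end Pool.Agent.TH211.AF
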