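import Mathlib

set_option autoImplicit false

/-!
Forms of degree `d` in `n` variables, given by their coefficient vectors, with their Jacobian
ideals and Hessian determinants.
-/

namespace Pool.Agent.TH211.AF

open MvPolynomial

/-- The exponent vectors `α : Fin n →₀ ℕ` with `∑ i, α i = k`, which index the monomials of
degree `k` in `n` variables. -/
abbrev Expo (n k : ℕ) : Type :=
  {α : Fin n →₀ ℕ // α ∈ (Finset.univ : Finset (Fin n)).finsuppAntidiag k}

/-- The form of degree `d` in `n` variables with coefficient vector `a`. -/
noncomputable def form {R : Type} [CommRing R] {n d : ℕ} (a : Expo n d → R) :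
    MvPolynomial (Fin n) R :=
  ∑ α : Expo n d, monomial α.1 (a α)

/-- The Hessian determinant of the form with coefficient vector `a`. -/
noncomputable def hess {R : Type} [CommRing R] {n d : ℕ} (a : Expo n d → R) :
    MvPolynomial (Fin n) R :=
  (Matrix.of fun i j : Fin n => pderiv i (pderiv j (form a))).det

/-- The ideal generated by the first partial derivatives of the form with coefficient vector `a`. -/
noncomputable def jac {R : Type} [CommRing R] {n d : ℕ} (a : Expo n d → R) :
    Ideal (MvPolynomial (Fin n) R) :=
  Ideal.span (Set.range fun i : Fin n => pderiv i (form a))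

/-- The form with coefficient vector `c` is nondegenerate: its first partial derivatives have no
common zero except `0`, i.e. its hypersurface has an isolated singularity at `0`. -/
def Nondegenerate {n d : ℕ} (c : Expo n d → ℂ) : Prop :=
  ∀ z : Fin n → ℂ, (∀ i, eval z (pderiv i (form c)) = 0) → z = 0

/-- `Δ` is a discriminant of the space of forms of degree `d` in `n` variables: an irreducible
polynomial in the coefficients which vanishes exactly at the degenerate forms. -/
def IsDiscriminant (n d : ℕ) (Δ : MvPolynomial (Expo n d) ℂ) : Prop :=
  Irreducible Δ ∧ ∀ c : Expo n d → ℂ, eval c Δ = 0 ↔ ¬ Nondegenerate c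

/-- The ideal generated by the first partial derivatives of a form in the ring of formal power
series `ℂ⟦z_1, …, z_n⟧`; its quotient is the Milnor algebra. -/
noncomputable def milnorIdeal {n d : ℕ} (c : Expo n d → ℂ) : Ideal (MvPowerSeries (Fin n) ℂ) :=
  Ideal.span (Set.range fun i : Fin n =>
    ((pderiv i (form c) : MvPolynomial (Fin n) ℂ) : MvPowerSeries (Fin n) ℂ))

/-- `F` is the associated form of the form `f` with coefficient vector `c`: it is a form of degree
`n (d - 2)` whose value at any `u ∈ ℂⁿ` is the scalar `F(u)` for which
`(u_1 z_1 + … + u_n z_n) ^ (n (d - 2)) ≡ F(u) * Hess(f)` modulo the ideal of the first partial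
derivatives of `f` in the ring of formal power series. -/
def IsAssociatedForm {n d : ℕ} (c : Expo n d → ℂ) (F : MvPolynomial (Fin n) ℂ) : Prop :=
  F.IsHomogeneous (n * (d - 2)) ∧ ∀ u : Fin n → ℂ,
    (((∑ i, C (u i) * X i) ^ (n * (d - 2)) - C (eval u F) * hess c : MvPolynomial (Fin n) ℂ) :
      MvPowerSeries (Fin n) ℂ) ∈ milnorIdeal c

open Classical in
/-- The associated form `Φ(f)` of the form `f` with coefficient vector `c` (for nondegenerate forms
it exists and is unique; the value `0` in the other case is irrelevant). -/
noncomputable def assocForm {n d : ℕ} (c : Expo n d → ℂ) : MvPolynomial (Fin n) ℂ :=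
  if h : ∃ F, IsAssociatedForm c F then h.choose else 0

/-- `Δ ^ p * Φ`, a map from the nondegenerate forms of degree `d` to the forms of degree
`n (d - 2)`, extends to a morphism on the space of all forms of degree `d`: its coordinates are
polynomials in the coefficients. -/
def ExtendsToMorphism {n d : ℕ} (Δ : MvPolynomial (Expo n d) ℂ) (p : ℕ) : Prop :=
  ∃ G : Expo n (n * (d - 2)) → MvPolynomial (Expo n d) ℂ,
    ∀ c : Expo n d → ℂ, Nondegenerate c → ∀ β : Expo n (n * (d - 2)),
      (C (eval c Δ ^ p) * assocForm c).coeff β.1 = eval c (G β)

/-- The smallest positive integer `p` such that `Δ ^ p * Φ` extends to a morphism. -/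
noncomputable def minExponent {n d : ℕ} (Δ : MvPolynomial (Expo n d) ℂ) : ℕ :=
  sInf {p : ℕ | 0 < p ∧ ExtendsToMorphism Δ p}

end Pool.Agent.TH211.AF
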