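import Pool.Agent.TH211.AF.Elim

set_option autoImplicit false

namespace Pool.Agent.TH211.AF

open MvPolynomial

variable {n d : ℕ}

lemma exists_residue (hn : 1 ≤ n) (hd : 2 ≤ d) (a : CA n d) (ha : Van a) (h : CP n d)
    (hh : h.IsHomogeneous (n * (d - 2))) :
    ∃ e : CA n d, C a * h - C e * hess (X : Expo n d → CA n d) ∈ jac (X : Expo n d → CA n d) := by
  obtain ⟨N, hN⟩ := tors_of_van hn hd (by omega) a ha h
  have h1 : (C a * h).IsHomogeneous (n * (d - 2)) := by
    have := (isHomogeneous_C (Fin n) a).mul hh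
    rwa [zero_add] at this
  exact exists_C_mul_hess hn hd N _ h1 hN

lemma residue_unique (hn : 1 ≤ n) (hd : 2 ≤ d) {x : CP n d} {e e' : CA n d}
    (h : x - C e * hess (X : Expo n d → CA n d) ∈ jac (X : Expo n d → CA n d))
    (h' : x - C e' * hess (X : Expo n d → CA n d) ∈ jac (X : Expo n d → CA n d)) : e = e' := by
  have h1 := Ideal.sub_mem _ h' h
  have h2 : x - C e' * hess (X : Expo n d → CA n d) - (x - C e * hess (X : Expo n d → CA n d)) =
      C (e - e') * hess (X : Expo n d → CA n d) := by
    rw [C_sub]; ring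
  rw [h2] at h1
  exact sub_eq_zero.mp (C_mul_hess_mem hn hd _ h1)

/-- the Fermat form is nondegenerate -/
lemma exists_nondegenerate (hd : 2 ≤ d) : ∃ c : Expo n d → ℂ, Nondegenerate c := by
  classical
  refine ⟨fun α => ∑ i : Fin n, if α = sp i then 1 else 0, ?_⟩
  intro z hz
  funext j
  have h1 := hz j
  rw [eval_pderiv_form] at h1
  have h2 : ∀ α : Expo n d, (∑ i : Fin n, if α = sp i then (1 : ℂ) else 0) *
      eval z (pderiv j (monomial α.1 (1 : ℂ))) =
      ∑ i : Fin n, if α = sp i then eval z (pderiv j (monomial (sp i : Expo n d).1 (1 : ℂ)))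
        else 0 := by
    intro α
    rw [Finset.sum_mul]
    apply Finset.sum_congr rfl
    intro i _
    split_ifs with h
    · rw [h, one_mul]
    · rw [zero_mul]
  rw [Finset.sum_congr rfl (fun α _ => h2 α), Finset.sum_comm] at h1
  have h3 : ∀ i : Fin n, (∑ α : Expo n d, if α = sp i then
      eval z (pderiv j (monomial (sp i : Expo n d).1 (1 : ℂ))) else 0) =
      if i = j then (d : ℂ) * z j ^ (d - 1) else 0 := by
    intro i
    rw [Finset.sum_ite_eq' Finset.univ (sp i), if_pos (Finset.mem_univ _)]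
    have h4 : (monomial (sp i : Expo n d).1 (1 : ℂ) : MvPolynomial (Fin n) ℂ) = X i ^ d := by
      rw [X_pow_eq_monomial]; rfl
    rw [h4, Derivation.leibniz_pow]
    by_cases hij : i = j
    · subst hij
      simp
    · rw [pderiv_X_of_ne hij, if_neg hij]
      simp
  rw [Finset.sum_congr rfl (fun i _ => h3 i), Finset.sum_ite_eq' Finset.univ j,
    if_pos (Finset.mem_univ _)] at h1
  have hd0 : (d : ℂ) ≠ 0 := by
    have : d ≠ 0 := by omega
    exact_mod_cast this
  have h5 := (mul_eq_zero.mp h1).resolve_left hd0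
  exact (pow_eq_zero_iff (by omega)).mp h5

lemma zero_degenerate (hn : 1 ≤ n) : ¬ Nondegenerate (0 : Expo n d → ℂ) := by
  intro h
  have h1 := h (fun _ => 1) (by
    intro i
    have : form (0 : Expo n d → ℂ) = 0 := by
      unfold form
      simp
    rw [this]; simp)
  have h2 := congrFun h1 (⟨0, by omega⟩ : Fin n)
  simp at h2

/-- A polynomial in the coefficients vanishing at the degenerate forms but not at a given
nondegenerate one. -/
lemma exists_van (hn : 1 ≤ n) (hd : 2 ≤ d) (c : Expo n d → ℂ) (hc : Nondegenerate c) :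
    ∃ a : CA n d, Van a ∧ eval c a = 1 := by
  classical
  obtain ⟨N, hN⟩ := exists_pow hn c hc
  obtain ⟨a, ha1, ha2⟩ := exists_coeff c N hN
  refine ⟨a, ?_, ha1⟩
  let s : Fin n := ⟨0, by omega⟩
  apply van_of_mem hd (by omega) a s N
  have h1 := ha2 (sp s : Expo n N)
  have h2 : (monomial (sp s : Expo n N).1 1 : CP n d) = X s ^ N := by
    rw [X_pow_eq_monomial]; rfl
  rw [h2, mul_comm] at h1
  exact h1

/-- There is an irreducible polynomial generating the ideal of the degenerate forms. -/
theorem exists_generator (hn : 1 ≤ n) (hd : 2 ≤ d) :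
    ∃ π : CA n d, Irreducible π ∧ Van π ∧ ∀ b : CA n d, Van b → π ∣ b := by
  classical
  -- a nonzero element of minimal degree
  have hex : ∃ k : ℕ, ∃ a : CA n d, a ≠ 0 ∧ Van a ∧ a.totalDegree = k := by
    obtain ⟨c, hc⟩ := exists_nondegenerate (n := n) hd
    obtain ⟨a, ha, hca⟩ := exists_van hn hd c hc
    refine ⟨_, a, ?_, ha, rfl⟩
    rintro rfl
    simp at hca
  obtain ⟨π, hπ0, hπV, hπk⟩ := Nat.find_spec hex
  have hmin : ∀ a : CA n d, a ≠ 0 → Van a → π.totalDegree ≤ a.totalDegree := by
    intro a ha hV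
    rw [hπk]
    exact Nat.find_min' hex ⟨a, ha, hV, rfl⟩
  have hfac : ∀ a b : CA n d, π = a * b → Van a → IsUnit b := by
    intro a b hab ha
    have ha0 : a ≠ 0 := by rintro rfl; rw [zero_mul] at hab; exact hπ0 hab
    have hb0 : b ≠ 0 := by rintro rfl; rw [mul_zero] at hab; exact hπ0 hab
    have h1 := hmin a ha0 ha
    rw [hab, totalDegree_mul_of_isDomain ha0 hb0] at h1
    have h2 : b.totalDegree = 0 := by omega
    rw [totalDegree_eq_zero_iff_eq_C] at h2
    rw [h2]
    apply IsUnit.map
    rw [isUnit_iff_ne_zero]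
    intro h3
    rw [h3, map_zero] at h2
    exact hb0 h2
  have hirr : Irreducible π := by
    refine ⟨?_, ?_⟩
    · intro hu
      have h1 := hu.map (eval (0 : Expo n d → ℂ))
      rw [hπV 0 (zero_degenerate hn)] at h1
      exact not_isUnit_zero h1
    · intro a b hab
      rcases van_mul hn hd (by omega) a b (hab ▸ hπV) with h | h
      · exact Or.inr (hfac a b hab h)
      · exact Or.inl (hfac b a (by rw [hab, mul_comm]) h)
  refine ⟨π, hirr, hπV, ?_⟩
  intro b hb
  by_contra hdvd
  have hprime : Prime π := hirr.prime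
  -- residues
  have hmon : ∀ β : Expo n (n * (d - 2)), (monomial β.1 1 : CP n d).IsHomogeneous (n * (d - 2)) :=
    fun β => isHomogeneous_monomial _ (expo_degree β)
  choose e he using fun β : Expo n (n * (d - 2)) => exists_residue hn hd π hπV _ (hmon β)
  choose g hg using fun β : Expo n (n * (d - 2)) => exists_residue hn hd b hb _ (hmon β)
  have h1 : ∀ β, b * e β = π * g β := by
    intro β
    apply residue_unique hn hd (x := C b * (C π * monomial β.1 1))
    · have := Ideal.mul_mem_left _ (C b) (he β)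
      rwa [mul_sub, ← mul_assoc (C b) (C (e β)), ← C_mul] at this
    · have := Ideal.mul_mem_left _ (C π) (hg β)
      rwa [mul_sub, ← mul_assoc (C π) (C (g β)), ← C_mul, mul_left_comm] at this
  have h2 : ∀ β, ∃ f, e β = π * f := by
    intro β
    have h3 : π ∣ b * e β := ⟨g β, h1 β⟩
    exact (hprime.dvd_or_dvd h3).resolve_left hdvd
  choose f hf using h2
  -- the relation from the Hessian
  have h4 : π = ∑ β : Expo n (n * (d - 2)),
      (hess (X : Expo n d → CA n d)).coeff β.1 * e β := by
    apply residue_unique hn hd (x := C π * hess (X : Expo n d → CA n d))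
    · rw [sub_self]; exact Ideal.zero_mem _
    · have h5 : C π * hess (X : Expo n d → CA n d) -
          C (∑ β : Expo n (n * (d - 2)), (hess (X : Expo n d → CA n d)).coeff β.1 * e β) *
            hess (X : Expo n d → CA n d) =
          ∑ β : Expo n (n * (d - 2)), C ((hess (X : Expo n d → CA n d)).coeff β.1) *
            (C π * monomial β.1 1 - C (e β) * hess (X : Expo n d → CA n d)) := by
        have h6 := homog_eq_form (hess (X : Expo n d → CA n d)) (hess_isHomogeneous _)
        conv_lhs => 
          enter [1, 2]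
          rw [h6]
        unfold form
        rw [Finset.mul_sum, map_sum, Finset.sum_mul, ← Finset.sum_sub_distrib]
        apply Finset.sum_congr rfl
        intro β _
        have h7 : (monomial β.1 ((hess (X : Expo n d → CA n d)).coeff β.1) : CP n d) =
            C ((hess (X : Expo n d → CA n d)).coeff β.1) * monomial β.1 1 := by
          rw [C_mul_monomial, mul_one]
        unfold form at h7
        rw [h7, C_mul]
        ring
      rw [h5]
      apply Ideal.sum_mem
      intro β _
      exact Ideal.mul_mem_left _ _ (he β)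
  have h8 : (1 : CA n d) = ∑ β : Expo n (n * (d - 2)),
      (hess (X : Expo n d → CA n d)).coeff β.1 * f β := by
    apply mul_left_cancel₀ hπ0
    rw [mul_one, Finset.mul_sum]
    conv_lhs => rw [h4]
    apply Finset.sum_congr rfl
    intro β _
    rw [hf β]; ring
  have h9 := congrArg (eval (0 : Expo n d → ℂ)) h8
  rw [map_one, map_sum] at h9
  have h10 : ∀ β : Fin n →₀ ℕ, eval (0 : Expo n d → ℂ)
      ((hess (X : Expo n d → CA n d)).coeff β) = 0 := by
    intro β
    have h11 := congrArg (coeff β) (spz_hess (0 : Expo n d → ℂ))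
    unfold spz at h11
    rw [coeff_map] at h11
    rw [h11]
    have h12 : hess (0 : Expo n d → ℂ) = 0 := by
      unfold hess
      have : form (0 : Expo n d → ℂ) = 0 := by
        unfold form
        simp
      rw [this]
      have : Nonempty (Fin n) := ⟨⟨0, by omega⟩⟩
      have h13 : (Matrix.of fun i j : Fin n => pderiv i (pderiv j (0 : MvPolynomial (Fin n) ℂ))) =
          0 := by
        ext i j : 2
        simp
      rw [h13]
      exact Matrix.det_zero
    rw [h12, coeff_zero]
  rw [Finset.sum_eq_zero] at h9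
  · exact one_ne_zero h9
  · intro β _
    rw [map_mul, h10, zero_mul]

theorem generator_isDiscriminant (hn : 1 ≤ n) (hd : 2 ≤ d) {π : CA n d} (h1 : Irreducible π)
    (h2 : Van π) (h3 : ∀ b : CA n d, Van b → π ∣ b) : IsDiscriminant n d π := by
  refine ⟨h1, fun c => ⟨?_, h2 c⟩⟩
  intro hc hnd
  obtain ⟨a, ha, hca⟩ := exists_van hn hd c hnd
  obtain ⟨g, hg⟩ := h3 a ha
  rw [hg, map_mul, hc, zero_mul] at hca
  exact zero_ne_one hca

theorem exists_discriminant (hn : 1 ≤ n) (hd : 2 ≤ d) : ∃ Δ, IsDiscriminant n d Δ := by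
  obtain ⟨π, h1, h2, h3⟩ := exists_generator (n := n) hn hd
  exact ⟨π, generator_isDiscriminant hn hd h1 h2 h3⟩

theorem discriminant_unique (hn : 1 ≤ n) (hd : 2 ≤ d) (Δ Δ' : MvPolynomial (Expo n d) ℂ)
    (h : IsDiscriminant n d Δ) (h' : IsDiscriminant n d Δ') : ∃ u : ℂ, u ≠ 0 ∧ Δ' = C u * Δ := by
  obtain ⟨π, h1, h2, h3⟩ := exists_generator (n := n) hn hd
  have e1 : Associated π Δ := (h1.dvd_irreducible_iff_associated h.1).mp
    (h3 Δ fun c hc => (h.2 c).mpr hc)
  have e2 : Associated π Δ' := (h1.dvd_irreducible_iff_associated h'.1).mp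
    (h3 Δ' fun c hc => (h'.2 c).mpr hc)
  obtain ⟨u, hu⟩ := e1.symm.trans e2
  have h4 := u.isUnit
  rw [MvPolynomial.isUnit_iff_eq_C_of_isReduced] at h4
  obtain ⟨r, hr, hr'⟩ := h4
  refine ⟨r, hr.ne_zero, ?_⟩
  rw [← hu, hr', mul_comm]

/-- The Hessian of a nondegenerate form does not lie in its Jacobian ideal. -/
theorem hess_not_mem (hn : 1 ≤ n) (hd : 2 ≤ d) (c : Expo n d → ℂ) (hc : Nondegenerate c) :
    hess c ∉ jac c := by
  intro hmem
  obtain ⟨a, ha, hca⟩ := exists_van hn hd c hc
  have h1 : ∀ β : Expo n (n * (d - 2)), (monomial β.1 1 : MvPolynomial (Fin n) ℂ) ∈ jac c := by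
    intro β
    obtain ⟨e, he⟩ := exists_residue hn hd a ha (monomial β.1 1)
      (isHomogeneous_monomial _ (expo_degree β))
    have h2 := spz_jac c he
    rw [map_sub, map_mul, map_mul, spz_hess] at h2
    have h3 : spz c (C a) = 1 := by
      unfold spz
      rw [map_C, hca, C_1]
    have h4 : spz c (monomial β.1 1) = monomial β.1 1 := by
      unfold spz
      rw [map_monomial, map_one]
    rw [h3, one_mul, h4] at h2
    have h5 := Ideal.add_mem _ h2 (Ideal.mul_mem_left _ (spz c (C e)) hmem)
    rwa [sub_add_cancel] at h5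
  obtain ⟨b, hb1, hb2⟩ := exists_coeff c _ h1
  have h6 : C b * hess (X : Expo n d → CA n d) ∈ jac (X : Expo n d → CA n d) := by
    have h7 := homog_eq_form (hess (X : Expo n d → CA n d)) (hess_isHomogeneous _)
    rw [h7]
    unfold form
    rw [Finset.mul_sum]
    apply Ideal.sum_mem
    intro β _
    have h8 : (monomial β.1 (coeff β.1 (hess (X : Expo n d → CA n d))) : CP n d) =
        C (coeff β.1 (hess (X : Expo n d → CA n d))) * monomial β.1 1 := by
      rw [C_mul_monomial, mul_one]
    rw [h8, mul_left_comm]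
    exact Ideal.mul_mem_left _ _ (hb2 β)
  have h9 := C_mul_hess_mem hn hd b h6
  rw [h9, map_zero] at hb1
  exact zero_ne_one hb1

end Pool.Agent.TH211.AF
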