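import Pool.Agent.TH211.AF.Spec

set_option autoImplicit false

namespace Pool.Agent.TH211.AF

open MvPolynomial

variable {n d : ℕ}

/-- evaluation at a coefficient vector and a point -/
noncomputable def ev (c : Expo n d → ℂ) (z : Fin n → ℂ) : CP n d →+* ℂ :=
  (eval z).comp (spz c)

lemma ev_X (c : Expo n d → ℂ) (z : Fin n → ℂ) (i : Fin n) : ev c z (X i) = z i := by
  simp [ev, spz]

lemma ev_C (c : Expo n d → ℂ) (z : Fin n → ℂ) (a : CA n d) : ev c z (C a) = eval c a := by
  simp [ev, spz]

lemma ev_d1 (c : Expo n d → ℂ) (z : Fin n → ℂ) (i : Fin n) :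
    ev c z (pderiv i (form (X : Expo n d → CA n d))) = eval z (pderiv i (form c)) := by
  unfold ev
  rw [RingHom.comp_apply, spz_d1]

lemma ev_jac (c : Expo n d → ℂ) (z : Fin n → ℂ) (hz : ∀ i, eval z (pderiv i (form c)) = 0)
    {x : CP n d} (hx : x ∈ jac (X : Expo n d → CA n d)) : ev c z x = 0 := by
  unfold jac at hx
  rw [Ideal.mem_span_range_iff_exists_fun] at hx
  obtain ⟨g, rfl⟩ := hx
  rw [map_sum]
  apply Finset.sum_eq_zero
  intro i _
  rw [map_mul, ev_d1, hz i, mul_zero]

lemma ev_ext {x : CP n d} (h : ∀ c z, ev c z x = 0) : x = 0 := by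
  have h1 : ∀ c : Expo n d → ℂ, spz c x = 0 := by
    intro c
    apply MvPolynomial.funext
    intro z
    rw [map_zero]
    exact h c z
  ext β : 1
  rw [coeff_zero]
  apply MvPolynomial.funext
  intro c
  have := congrArg (coeff β) (h1 c)
  rw [coeff_zero] at this
  rw [map_zero, ← this]
  unfold spz
  rw [coeff_map]

/-- exponent of `z_s ^ (d-1) * z_j` -/
noncomputable def bx (hd : 1 ≤ d) (s j : Fin n) : Expo n d :=
  ⟨Finsupp.single s (d - 1) + Finsupp.single j 1, by
    classical
    rw [Finset.mem_finsuppAntidiag]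
    refine ⟨?_, Finset.subset_univ _⟩
    have h1 : ∀ (i : Fin n) (m : ℕ), ∑ k, (Finsupp.single i m : Fin n →₀ ℕ) k = m := by
      intro i m; simp [Finsupp.single_apply]
    rw [show (Finset.univ.sum fun k => (Finsupp.single s (d - 1) + Finsupp.single j 1 :
      Fin n →₀ ℕ) k) = ∑ k, ((Finsupp.single s (d - 1) : Fin n →₀ ℕ) k +
      (Finsupp.single j 1 : Fin n →₀ ℕ) k) from rfl, Finset.sum_add_distrib, h1, h1]
    omega⟩

lemma bx_inj (hd : 1 ≤ d) (s : Fin n) {j k : Fin n} (h : bx hd s j = bx hd s k) : j = k := by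
  have h1 := congrArg Subtype.val h
  have h2 : Finsupp.single j 1 = Finsupp.single k 1 := add_left_cancel h1
  exact (Finsupp.single_left_inj one_ne_zero).mp h2

/-- value of the derivative of the monomial `z_s ^ (d-1) z_k` -/
lemma eval_d_bx (hd : 1 ≤ d) (s j k : Fin n) (z : Fin n → ℂ) :
    eval z (pderiv j (monomial (bx hd s k).1 (1 : ℂ))) =
      (if j = s then ((d - 1 : ℕ) : ℂ) * z s ^ (d - 2) * z k else 0) +
      (if j = k then z s ^ (d - 1) else 0) := by
  have h1 : (monomial (bx hd s k).1 (1 : ℂ) : MvPolynomial (Fin n) ℂ) = X s ^ (d - 1) * X k := by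
    rw [X_pow_eq_monomial, X, monomial_mul, mul_one]
    rfl
  rw [h1, Derivation.leibniz, Derivation.leibniz_pow]
  have hs : ∀ l : Fin n, eval z (pderiv j (X l : MvPolynomial (Fin n) ℂ)) =
      if j = l then 1 else 0 := by
    intro l
    by_cases h : j = l
    · subst h; simp
    · rw [pderiv_X_of_ne (Ne.symm h)]; simp [h]
  simp only [smul_eq_mul, nsmul_eq_mul, map_add, map_mul, map_pow, eval_X, hs, map_natCast]
  rw [Nat.sub_sub]
  split_ifs <;> ring

/-- the corrections -/
noncomputable def G0 (s : Fin n) (j : Fin n) : CP n d :=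
  if j = s then C (C (1 / (d : ℂ))) * (X s * pderiv s (form (X : Expo n d → CA n d)) -
    ((d - 1 : ℕ) : CP n d) * ∑ k ∈ Finset.univ.erase s, X k * pderiv k (form (X : Expo n d → CA n d)))
  else X s * pderiv j (form (X : Expo n d → CA n d))

lemma G0_mem (s j : Fin n) : (G0 s j : CP n d) ∈ jac (X : Expo n d → CA n d) := by
  have h : ∀ i, pderiv i (form (X : Expo n d → CA n d)) ∈ jac (X : Expo n d → CA n d) :=
    fun i => Ideal.subset_span ⟨i, rfl⟩
  unfold G0
  split_ifs
  · apply Ideal.mul_mem_left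
    apply Ideal.sub_mem
    · exact Ideal.mul_mem_left _ _ (h s)
    · apply Ideal.mul_mem_left
      apply Ideal.sum_mem
      intro k _
      exact Ideal.mul_mem_left _ _ (h k)
  · exact Ideal.mul_mem_left _ _ (h j)

/-- correction of the coefficient with index `α` -/
noncomputable def G1 (hd : 1 ≤ d) (s : Fin n) (α : Expo n d) : CP n d := by
  classical
  exact ∑ j, if α = bx hd s j then G0 s j else 0

lemma G1_mem (hd : 1 ≤ d) (s : Fin n) (α : Expo n d) :
    G1 hd s α ∈ jac (X : Expo n d → CA n d) := by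
  classical
  unfold G1
  apply Ideal.sum_mem
  intro j _
  split_ifs
  · exact G0_mem s j
  · exact Ideal.zero_mem _

/-- the corrected coefficient vector -/
noncomputable def cor (hd : 1 ≤ d) (s : Fin n) (c : Expo n d → ℂ) (z : Fin n → ℂ) :
    Expo n d → ℂ := fun α => c α - ev c z (G1 hd s α) / z s ^ d

lemma eval_pderiv_form (c : Expo n d → ℂ) (z : Fin n → ℂ) (j : Fin n) :
    eval z (pderiv j (form c)) = ∑ α : Expo n d, c α * eval z (pderiv j (monomial α.1 (1 : ℂ))) := by
  unfold form
  rw [map_sum, map_sum]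
  apply Finset.sum_congr rfl
  intro α _
  have : (monomial α.1 (c α) : MvPolynomial (Fin n) ℂ) = C (c α) * monomial α.1 1 := by
    rw [C_mul_monomial, mul_one]
  rw [this, pderiv_C_mul, map_mul, eval_C]

lemma cor_sing (hd2 : 2 ≤ d) (hd : 1 ≤ d) (s : Fin n) (c : Expo n d → ℂ) (z : Fin n → ℂ) (hz : z s ≠ 0)
    (j : Fin n) : eval z (pderiv j (form (cor hd s c z))) = 0 := by
  classical
  rw [eval_pderiv_form]
  have h1 : ∀ α : Expo n d, cor hd s c z α * eval z (pderiv j (monomial α.1 (1 : ℂ))) =
      c α * eval z (pderiv j (monomial α.1 (1 : ℂ))) -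
      (1 / z s ^ d) * ∑ k, if α = bx hd s k then ev c z (G0 s k) *
        eval z (pderiv j (monomial (bx hd s k).1 (1 : ℂ))) else 0 := by
    intro α
    have h2 : ev c z (G1 hd s α) = ∑ k, if α = bx hd s k then ev c z (G0 s k) else 0 := by
      unfold G1
      rw [map_sum]
      apply Finset.sum_congr rfl
      intro k _
      split_ifs
      · rfl
      · exact map_zero _
    have h3 : (∑ k, if α = bx hd s k then ev c z (G0 s k) *
        eval z (pderiv j (monomial (bx hd s k).1 (1 : ℂ))) else 0) =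
        ev c z (G1 hd s α) * eval z (pderiv j (monomial α.1 (1 : ℂ))) := by
      rw [h2, Finset.sum_mul]
      apply Finset.sum_congr rfl
      intro k _
      split_ifs with h
      · rw [h]
      · rw [zero_mul]
    rw [h3]
    unfold cor
    ring
  rw [Finset.sum_congr rfl (fun α _ => h1 α), Finset.sum_sub_distrib, ← eval_pderiv_form,
    ← Finset.mul_sum, Finset.sum_comm]
  have h4 : ∀ k : Fin n, (∑ α : Expo n d, if α = bx hd s k then ev c z (G0 s k) *
        eval z (pderiv j (monomial (bx hd s k).1 (1 : ℂ))) else 0) =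
      ev c z (G0 s k) * eval z (pderiv j (monomial (bx hd s k).1 (1 : ℂ))) := by
    intro k
    rw [Finset.sum_ite_eq' Finset.univ (bx hd s k), if_pos (Finset.mem_univ _)]
  rw [Finset.sum_congr rfl (fun k _ => h4 k)]
  have hd0 : (d : ℂ) ≠ 0 := by
    have : d ≠ 0 := by omega
    exact_mod_cast this
  have hzd : z s ^ d ≠ 0 := pow_ne_zero _ hz
  have hzd1 : z s * z s ^ (d - 1) = z s ^ d := by
    rw [← pow_succ', Nat.sub_add_cancel hd]
  have key : ∑ k, ev c z (G0 s k) * eval z (pderiv j (monomial (bx hd s k).1 (1 : ℂ))) =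
      z s ^ d * eval z (pderiv j (form c)) := by
    rw [← Finset.add_sum_erase _ _ (Finset.mem_univ s)]
    have hGs : ev c z (G0 s s) = (1 / (d : ℂ)) * (z s * eval z (pderiv s (form c)) -
        ((d - 1 : ℕ) : ℂ) * ∑ k ∈ Finset.univ.erase s, z k * eval z (pderiv k (form c))) := by
      unfold G0
      rw [if_pos rfl]
      simp only [map_mul, map_sub, map_sum, ev_X, ev_d1, ev_C, eval_C, map_natCast]
    have hGk : ∀ k ∈ Finset.univ.erase s, ev c z (G0 s k) = z s * eval z (pderiv k (form c)) := by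
      intro k hk
      unfold G0
      rw [if_neg (Finset.ne_of_mem_erase hk)]
      rw [map_mul, ev_X, ev_d1]
    have h6 : ∑ k ∈ Finset.univ.erase s,
        ev c z (G0 s k) * eval z (pderiv j (monomial (bx hd s k).1 (1 : ℂ))) =
        ∑ k ∈ Finset.univ.erase s, z s * eval z (pderiv k (form c)) *
          ((if j = s then ((d - 1 : ℕ) : ℂ) * z s ^ (d - 2) * z k else 0) +
            if j = k then z s ^ (d - 1) else 0) :=
      Finset.sum_congr rfl fun k hk => by rw [hGk k hk, eval_d_bx]
    rw [hGs, h6, eval_d_bx]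
    by_cases hj : j = s
    · subst hj
      have h5 : ∑ k ∈ Finset.univ.erase j, z j * eval z (pderiv k (form c)) *
          ((if j = j then ((d - 1 : ℕ) : ℂ) * z j ^ (d - 2) * z k else 0) +
            if j = k then z j ^ (d - 1) else 0) =
          (((d - 1 : ℕ) : ℂ) * (z j * z j ^ (d - 2))) *
            ∑ k ∈ Finset.univ.erase j, z k * eval z (pderiv k (form c)) := by
        rw [Finset.mul_sum]
        apply Finset.sum_congr rfl
        intro k hk
        rw [if_pos rfl, if_neg (Finset.ne_of_mem_erase hk).symm]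
        ring
      rw [h5, if_pos rfl, if_pos rfl]
      generalize (∑ k ∈ Finset.univ.erase j, z k * eval z (pderiv k (form c))) = S
      generalize eval z (pderiv j (form c)) = F
      have hcast : (d : ℂ) = ((d - 1 : ℕ) : ℂ) + 1 := by
        have : d = (d - 1) + 1 := by omega
        exact_mod_cast this
      have hzd2 : z j * z j ^ (d - 2) = z j ^ (d - 1) := by
        rw [← pow_succ']; congr 1; omega
      have hzd3 : z j ^ (d - 2) * z j = z j ^ (d - 1) := by
        rw [mul_comm]; exact hzd2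
      rw [hzd2]
      have e1 : ((d - 1 : ℕ) : ℂ) * z j ^ (d - 2) * z j + z j ^ (d - 1) =
          (d : ℂ) * z j ^ (d - 1) := by
        rw [mul_assoc, hzd3, hcast]; ring
      rw [e1, ← hzd1]
      field_simp
      ring
    · have h5 : ∑ k ∈ Finset.univ.erase s, z s * eval z (pderiv k (form c)) *
          ((if j = s then ((d - 1 : ℕ) : ℂ) * z s ^ (d - 2) * z k else 0) +
            if j = k then z s ^ (d - 1) else 0) =
          z s ^ d * eval z (pderiv j (form c)) := by
        rw [Finset.sum_eq_single j]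
        · rw [if_neg hj, if_pos rfl, zero_add, ← hzd1]; ring
        · intro k _ hk
          rw [if_neg hj, if_neg (Ne.symm hk)]; ring
        · intro h
          exact absurd (Finset.mem_erase.mpr ⟨hj, Finset.mem_univ _⟩) h
      rw [h5, if_neg hj, if_neg hj]
      ring
  rw [key]
  field_simp
  ring

/-- Clearing denominators in the substitution of the corrected coefficients. -/
lemma exists_subst (hd : 1 ≤ d) (s : Fin n) (a : CA n d) :
    ∃ (N : ℕ) (a' : CP n d), X s ^ N * C a - a' ∈ jac (X : Expo n d → CA n d) ∧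
      ∀ c z, z s ≠ 0 → ev c z a' = z s ^ N * eval (cor hd s c z) a := by
  induction a using MvPolynomial.induction_on with
  | C r =>
    refine ⟨0, C (C r), by simp, ?_⟩
    intro c z _
    rw [ev_C, eval_C, eval_C, pow_zero, one_mul]
  | add a b ha hb =>
    obtain ⟨N, a', ha1, ha2⟩ := ha
    obtain ⟨M, b', hb1, hb2⟩ := hb
    refine ⟨N + M, X s ^ M * a' + X s ^ N * b', ?_, ?_⟩
    · have : X s ^ (N + M) * C (a + b) - (X s ^ M * a' + X s ^ N * b') =
          X s ^ M * (X s ^ N * C a - a') + X s ^ N * (X s ^ M * C b - b') := by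
        rw [C_add]; ring
      rw [this]
      exact Ideal.add_mem _ (Ideal.mul_mem_left _ _ ha1) (Ideal.mul_mem_left _ _ hb1)
    · intro c z hz
      simp only [map_add, map_mul, map_pow, ev_X, ha2 c z hz, hb2 c z hz]
      ring
  | mul_X a α ha =>
    obtain ⟨N, a', ha1, ha2⟩ := ha
    refine ⟨N + d, a' * (X s ^ d * C (X α) - G1 hd s α), ?_, ?_⟩
    · have : X s ^ (N + d) * C (a * X α) - a' * (X s ^ d * C (X α) - G1 hd s α) =
          (X s ^ d * C (X α)) * (X s ^ N * C a - a') + a' * G1 hd s α := by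
        rw [C_mul]; ring
      rw [this]
      exact Ideal.add_mem _ (Ideal.mul_mem_left _ _ ha1)
        (Ideal.mul_mem_left _ _ (G1_mem hd s α))
    · intro c z hz
      simp only [map_sub, map_mul, map_pow, ev_X, ha2 c z hz, ev_C, eval_X]
      have hzd : z s ^ d ≠ 0 := pow_ne_zero _ hz
      have : cor hd s c z α = c α - ev c z (G1 hd s α) / z s ^ d := rfl
      rw [this, pow_add]
      field_simp

/-- `a` vanishes at all degenerate forms -/
def Van (a : CA n d) : Prop := ∀ c : Expo n d → ℂ, ¬ Nondegenerate c → eval c a = 0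

lemma cor_degenerate (hd2 : 2 ≤ d) (hd : 1 ≤ d) (s : Fin n) (c : Expo n d → ℂ) (z : Fin n → ℂ)
    (hz : z s ≠ 0) : ¬ Nondegenerate (cor hd s c z) := by
  intro h
  have := h z (cor_sing hd2 hd s c z hz)
  apply hz
  rw [this]; rfl

lemma mem_of_van (hd2 : 2 ≤ d) (hd : 1 ≤ d) (a : CA n d) (ha : Van a) (s : Fin n) :
    ∃ N : ℕ, X s ^ N * C a ∈ jac (X : Expo n d → CA n d) := by
  obtain ⟨N, a', h1, h2⟩ := exists_subst hd s a
  have h3 : a' = 0 := by
    have h4 : a' * X s = 0 := by
      apply ev_ext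
      intro c z
      rw [map_mul, ev_X]
      by_cases hz : z s = 0
      · rw [hz, mul_zero]
      · rw [h2 c z hz, ha _ (cor_degenerate hd2 hd s c z hz)]; ring
    rcases mul_eq_zero.mp h4 with h | h
    · exact h
    · exact absurd h (X_ne_zero s)
  rw [h3, sub_zero] at h1
  exact ⟨N, h1⟩

lemma van_of_mem (hd2 : 2 ≤ d) (hd : 1 ≤ d) (a : CA n d) (s : Fin n) (N : ℕ)
    (h : X s ^ N * C a ∈ jac (X : Expo n d → CA n d)) : Van a := by
  have h0 : ∀ t : Fin n, ∃ M : ℕ, X t ^ M * C a ∈ jac (X : Expo n d → CA n d) := by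
    intro t
    obtain ⟨M, a', h1, h2⟩ := exists_subst hd t a
    have h3 : a' = 0 := by
      have h4 : X s ^ N * a' * X t = 0 := by
        apply ev_ext
        intro c z
        rw [map_mul, map_mul, map_pow, ev_X, ev_X]
        by_cases hz : z t = 0
        · rw [hz, mul_zero]
        · have h5 := ev_jac (cor hd t c z) z (cor_sing hd2 hd t c z hz) h
          rw [map_mul, map_pow, ev_X, ev_C] at h5
          rw [h2 c z hz]
          linear_combination (z t ^ M * z t) * h5
      rcases mul_eq_zero.mp h4 with h | h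
      · rcases mul_eq_zero.mp h with h | h
        · exact absurd h (pow_ne_zero _ (X_ne_zero s))
        · exact h
      · exact absurd h (X_ne_zero t)
    rw [h3, sub_zero] at h1
    exact ⟨M, h1⟩
  intro c hc
  unfold Nondegenerate at hc
  push Not at hc
  obtain ⟨z, hz, hz0⟩ := hc
  obtain ⟨t, ht⟩ : ∃ t, z t ≠ 0 := by
    by_contra hcon
    push Not at hcon
    exact hz0 (funext hcon)
  obtain ⟨M, hM⟩ := h0 t
  have h6 := ev_jac c z hz hM
  rw [map_mul, map_pow, ev_X, ev_C] at h6
  exact (mul_eq_zero.mp h6).resolve_left (pow_ne_zero _ ht)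

lemma van_mul (hn : 1 ≤ n) (hd2 : 2 ≤ d) (hd : 1 ≤ d) (a b : CA n d) (hab : Van (a * b)) :
    Van a ∨ Van b := by
  let s : Fin n := ⟨0, by omega⟩
  obtain ⟨N, a', ha1, ha2⟩ := exists_subst hd s a
  obtain ⟨M, b', hb1, hb2⟩ := exists_subst hd s b
  have h : a' * b' * X s = 0 := by
    apply ev_ext
    intro c z
    rw [map_mul, map_mul, ev_X]
    by_cases hz : z s = 0
    · rw [hz, mul_zero]
    · have h5 := hab _ (cor_degenerate hd2 hd s c z hz)
      rw [map_mul] at h5
      rw [ha2 c z hz, hb2 c z hz]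
      linear_combination (z s ^ N * z s ^ M * z s) * h5
  rcases mul_eq_zero.mp h with h | h
  · rcases mul_eq_zero.mp h with h | h
    · rw [h, sub_zero] at ha1
      exact Or.inl (van_of_mem hd2 hd a s N ha1)
    · rw [h, sub_zero] at hb1
      exact Or.inr (van_of_mem hd2 hd b s M hb1)
  · exact absurd h (X_ne_zero s)

/-- An element vanishing on the degenerate forms is torsion with respect to the powers of all
variables. -/
lemma tors_of_van (hn : 1 ≤ n) (hd2 : 2 ≤ d) (hd : 1 ≤ d) (a : CA n d) (ha : Van a) (h : CP n d) :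
    ∃ N : ℕ, Tors N (C a * h) := by
  choose N hN using mem_of_van hd2 hd a ha
  refine ⟨n * (Finset.univ.sup N), ?_⟩
  intro β hβ
  obtain ⟨j, hj⟩ : ∃ j, N j ≤ β j := by
    by_contra hcon
    push Not at hcon
    have h4 : ∑ i, β i = n * (Finset.univ.sup N) := by
      rw [← hβ, Finsupp.degree_eq_sum]
    have h5 : ∑ i, β i < ∑ _i : Fin n, Finset.univ.sup N := by
      apply Finset.sum_lt_sum_of_nonempty
      · exact ⟨⟨0, by omega⟩, Finset.mem_univ _⟩
      · intro i _
        exact (hcon i).trans_le (Finset.le_sup (Finset.mem_univ i))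
    rw [h4, Finset.sum_const, Finset.card_univ, Fintype.card_fin, smul_eq_mul] at h5
    exact lt_irrefl _ h5
  have h6 : (monomial β 1 : CP n d) =
      monomial (β - Finsupp.single j (N j)) 1 * X j ^ N j := by
    rw [X_pow_eq_monomial, monomial_mul, mul_one, tsub_add_cancel_of_le]
    rwa [Finsupp.single_le_iff]
  have h7 : monomial β 1 * (C a * h) =
      (monomial (β - Finsupp.single j (N j)) 1 * h) * (X j ^ N j * C a) := by
    rw [h6]; ring
  rw [h7]
  exact Ideal.mul_mem_left _ _ (hN j)

end Pool.Agent.TH211.AF
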