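import Pool.Agent.TH211.AF.Disc

set_option autoImplicit false

namespace Pool.Agent.TH211.AF

open MvPolynomial

variable {n d : ℕ}

/-- elements of the Jacobian ideal of a form lie in the ideal of the Milnor algebra -/
lemma coe_mem_milnorIdeal (c : Expo n d → ℂ) {x : MvPolynomial (Fin n) ℂ} (hx : x ∈ jac c) :
    (x : MvPowerSeries (Fin n) ℂ) ∈ milnorIdeal c := by
  unfold jac at hx
  rw [Ideal.mem_span_range_iff_exists_fun] at hx
  obtain ⟨g, rfl⟩ := hx
  have h1 : ((∑ i, g i * pderiv i (form c) : MvPolynomial (Fin n) ℂ) : MvPowerSeries (Fin n) ℂ) =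
      ∑ i, (g i : MvPowerSeries (Fin n) ℂ) *
        ((pderiv i (form c) : MvPolynomial (Fin n) ℂ) : MvPowerSeries (Fin n) ℂ) := by
    rw [← coeToMvPowerSeries.ringHom_apply, map_sum]
    apply Finset.sum_congr rfl
    intro i _
    rw [map_mul]
    rfl
  rw [h1]
  unfold milnorIdeal
  apply Ideal.sum_mem
  intro i _
  exact Ideal.mul_mem_left _ _ (Ideal.subset_span ⟨i, rfl⟩)

/-- Conversely for homogeneous elements. -/
lemma mem_jac_of_coe_mem (c : Expo n d → ℂ) {k : ℕ} (hk : d - 1 ≤ k)
    {x : MvPolynomial (Fin n) ℂ} (hh : x.IsHomogeneous k)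
    (hx : (x : MvPowerSeries (Fin n) ℂ) ∈ milnorIdeal c) : x ∈ jac c := by
  classical
  unfold milnorIdeal at hx
  rw [Ideal.mem_span_range_iff_exists_fun] at hx
  obtain ⟨g, hg⟩ := hx
  let p : Fin n → MvPolynomial (Fin n) ℂ := fun i =>
    form (fun β : Expo n (k - (d - 1)) => MvPowerSeries.coeff β.1 (g i))
  have hp : ∀ i (β : Fin n →₀ ℕ), β.degree = k - (d - 1) →
      (p i).coeff β = MvPowerSeries.coeff β (g i) := by
    intro i β hβ
    have hβ' : β ∈ (Finset.univ : Finset (Fin n)).finsuppAntidiag (k - (d - 1)) := by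
      rw [Finset.mem_finsuppAntidiag]
      refine ⟨?_, Finset.subset_univ _⟩
      rw [← hβ, Finsupp.degree_eq_sum]
    change coeff β (form _) = _
    unfold form
    rw [coeff_sum, Finset.sum_eq_single (⟨β, hβ'⟩ : Expo n (k - (d - 1)))]
    · rw [coeff_monomial, if_pos rfl]
    · intro γ _ hγ
      rw [coeff_monomial, if_neg]
      intro he
      exact hγ (Subtype.ext he)
    · intro h; exact absurd (Finset.mem_univ _) h
  have hph : ∀ i, (p i).IsHomogeneous (k - (d - 1)) := fun i => form_isHomogeneous _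
  have key : x = ∑ i, p i * pderiv i (form c) := by
    ext γ
    by_cases hγ : γ.degree = k
    · have h1 := congrArg (MvPowerSeries.coeff γ) hg
      rw [coeff_coe] at h1
      rw [← h1, map_sum, coeff_sum]
      apply Finset.sum_congr rfl
      intro i _
      rw [MvPowerSeries.coeff_mul, coeff_mul]
      apply Finset.sum_congr rfl
      rintro ⟨a, b⟩ hab
      rw [Finset.HasAntidiagonal.mem_antidiagonal] at hab
      simp only at hab ⊢
      rw [coeff_coe]
      by_cases hb : b.degree = d - 1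
      · rw [hp i a]
        have h2 := congrArg Finsupp.degree hab
        rw [map_add, hb, hγ] at h2
        omega
      · rw [(d1_isHomogeneous c i).coeff_eq_zero hb, mul_zero, mul_zero]
    · rw [hh.coeff_eq_zero hγ]
      have h3 : (∑ i, p i * pderiv i (form c)).IsHomogeneous k := by
        apply IsHomogeneous.sum
        intro i _
        have := (hph i).mul (d1_isHomogeneous c i)
        rwa [Nat.sub_add_cancel hk] at this
      rw [h3.coeff_eq_zero hγ]
  rw [key]
  unfold jac
  apply Ideal.sum_mem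
  intro i _
  exact Ideal.mul_mem_left _ _ (Ideal.subset_span ⟨i, rfl⟩)

/-- the power of a linear form in terms of monomials -/
lemma linear_pow (u : Fin n → ℂ) (k : ℕ) :
    ((∑ i, C (u i) * X i) ^ k : MvPolynomial (Fin n) ℂ) =
      ∑ β : Expo n k, C ((β.1.multinomial : ℂ) * ∏ i, u i ^ β.1 i) * monomial β.1 1 := by
  classical
  have h1 : ((∑ i, C (u i) * X i : MvPolynomial (Fin n) ℂ)) = ∑ i, u i • X i := by
    apply Finset.sum_congr rfl
    intro i _
    rw [smul_eq_C_mul]
  have h2 : ((∑ i, C (u i) * X i) ^ k : MvPolynomial (Fin n) ℂ).IsHomogeneous k := by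
    have h3 : (∑ i, C (u i) * X i : MvPolynomial (Fin n) ℂ).IsHomogeneous 1 := by
      apply IsHomogeneous.sum
      intro i _
      exact isHomogeneous_C_mul_X _ _
    have := h3.pow k
    rwa [one_mul] at this
  rw [homog_eq_form _ h2]
  unfold form
  apply Finset.sum_congr rfl
  intro β _
  rw [C_mul_monomial, mul_one]
  congr 1
  beta_reduce
  rw [h1, coeff_linearCombination_X_pow_of_fintype, if_pos]
  · rw [Finsupp.prod_fintype]
    intro i; rw [pow_zero]
  · rw [Finsupp.sum_fintype _ _ (fun _ => rfl)]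
    exact expo_sum β

lemma associatedForm_unique (hn : 2 ≤ n) (hd : 3 ≤ d) (c : Expo n d → ℂ) (hc : Nondegenerate c)
    (F F' : MvPolynomial (Fin n) ℂ) (hF : IsAssociatedForm c F) (hF' : IsAssociatedForm c F') :
    F = F' := by
  apply MvPolynomial.funext
  intro u
  by_contra hne
  have h1 := Ideal.sub_mem _ (hF'.2 u) (hF.2 u)
  have h2 : (((C (eval u F - eval u F') * hess c : MvPolynomial (Fin n) ℂ)) :
      MvPowerSeries (Fin n) ℂ) ∈ milnorIdeal c := by
    have h3 : (((C (eval u F - eval u F') * hess c : MvPolynomial (Fin n) ℂ)) :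
        MvPowerSeries (Fin n) ℂ) =
        (((∑ i, C (u i) * X i) ^ (n * (d - 2)) - C (eval u F') * hess c :
          MvPolynomial (Fin n) ℂ) : MvPowerSeries (Fin n) ℂ) -
        (((∑ i, C (u i) * X i) ^ (n * (d - 2)) - C (eval u F) * hess c :
          MvPolynomial (Fin n) ℂ) : MvPowerSeries (Fin n) ℂ) := by
      have h3' : (C (eval u F - eval u F') * hess c : MvPolynomial (Fin n) ℂ) =
          ((∑ i, C (u i) * X i) ^ (n * (d - 2)) - C (eval u F') * hess c) -
          ((∑ i, C (u i) * X i) ^ (n * (d - 2)) - C (eval u F) * hess c) := by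
        rw [C_sub]; ring
      rw [h3']
      exact map_sub (coeToMvPowerSeries.ringHom) _ _
    rw [h3]
    exact h1
  have h4 : (C (eval u F - eval u F') * hess c).IsHomogeneous (n * (d - 2)) := by
    have := (isHomogeneous_C (Fin n) (eval u F - eval u F')).mul (hess_isHomogeneous c)
    rwa [zero_add] at this
  have h5 : d - 1 ≤ n * (d - 2) := by
    have : 2 * (d - 2) ≤ n * (d - 2) := Nat.mul_le_mul_right _ hn
    omega
  have h6 := mem_jac_of_coe_mem c h5 h4 h2
  have h7 := Ideal.mul_mem_left _ (C (eval u F - eval u F')⁻¹) h6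
  rw [← mul_assoc, ← C_mul, inv_mul_cancel₀ (sub_ne_zero.mpr hne), C_1, one_mul] at h7
  exact hess_not_mem (by omega) (by omega) c hc h7

/-- Explicit associated form. -/
lemma isAssociatedForm_of (c : Expo n d → ℂ) (Δ : CA n d) (hΔ : eval c Δ ≠ 0)
    (e : Expo n (n * (d - 2)) → CA n d)
    (he : ∀ β : Expo n (n * (d - 2)), C Δ * monomial β.1 1 - C (e β) *
      hess (X : Expo n d → CA n d) ∈ jac (X : Expo n d → CA n d)) :
    IsAssociatedForm c (form fun β : Expo n (n * (d - 2)) =>
      (β.1.multinomial : ℂ) * (eval c (e β) / eval c Δ)) := by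
  classical
  refine ⟨form_isHomogeneous _, fun u => ?_⟩
  apply coe_mem_milnorIdeal
  have h1 : ∀ β : Expo n (n * (d - 2)), (monomial β.1 1 : MvPolynomial (Fin n) ℂ) -
      C (eval c (e β) / eval c Δ) * hess c ∈ jac c := by
    intro β
    have h2 := spz_jac c (he β)
    rw [map_sub, map_mul, map_mul, spz_hess] at h2
    have h3 : spz c (C Δ) = C (eval c Δ) := by unfold spz; rw [map_C]
    have h4 : spz c (C (e β)) = C (eval c (e β)) := by unfold spz; rw [map_C]
    have h5 : spz c (monomial β.1 1) = monomial β.1 1 := by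
      unfold spz; rw [map_monomial, map_one]
    rw [h3, h4, h5] at h2
    have h6 := Ideal.mul_mem_left _ (C (eval c Δ)⁻¹) h2
    rw [mul_sub, ← mul_assoc, ← mul_assoc, ← C_mul, ← C_mul, inv_mul_cancel₀ hΔ, C_1,
      one_mul] at h6
    rwa [div_eq_inv_mul]
  rw [linear_pow]
  have h7 : eval u (form fun β : Expo n (n * (d - 2)) =>
      (β.1.multinomial : ℂ) * (eval c (e β) / eval c Δ)) =
      ∑ β : Expo n (n * (d - 2)), ((β.1.multinomial : ℂ) * ∏ i, u i ^ β.1 i) *
        (eval c (e β) / eval c Δ) := by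
    unfold form
    rw [map_sum]
    apply Finset.sum_congr rfl
    intro β _
    rw [eval_monomial, Finsupp.prod_fintype _ _ (fun i => by rw [pow_zero])]
    ring
  rw [h7, map_sum, Finset.sum_mul, ← Finset.sum_sub_distrib]
  apply Ideal.sum_mem
  intro β _
  have h8 : C ((β.1.multinomial : ℂ) * ∏ i, u i ^ β.1 i) * monomial β.1 1 -
      C ((β.1.multinomial : ℂ) * (∏ i, u i ^ β.1 i) * (eval c (e β) / eval c Δ)) * hess c =
      C ((β.1.multinomial : ℂ) * ∏ i, u i ^ β.1 i) *
        (monomial β.1 1 - C (eval c (e β) / eval c Δ) * hess c) := by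
    rw [C_mul (a := (β.1.multinomial : ℂ) * ∏ i, u i ^ β.1 i)
      (a' := eval c (e β) / eval c Δ)]
    ring
  rw [h8]
  exact Ideal.mul_mem_left _ _ (h1 β)

lemma van_of_isDiscriminant {Δ : CA n d} (h : IsDiscriminant n d Δ) : Van Δ :=
  fun c hc => (h.2 c).mpr hc

theorem existsUnique_associatedForm (hn : 2 ≤ n) (hd : 3 ≤ d) (c : Expo n d → ℂ)
    (hc : Nondegenerate c) : ∃! F : MvPolynomial (Fin n) ℂ, IsAssociatedForm c F := by
  obtain ⟨a, ha, hca⟩ := exists_van (by omega) (by omega) c hc
  choose e he using fun β : Expo n (n * (d - 2)) => exists_residue (by omega) (by omega) a ha _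
    (isHomogeneous_monomial (1 : CA n d) (expo_degree β))
  refine ⟨_, isAssociatedForm_of c a (by rw [hca]; exact one_ne_zero) e he, ?_⟩
  intro F hF
  exact associatedForm_unique hn hd c hc _ _ hF
    (isAssociatedForm_of c a (by rw [hca]; exact one_ne_zero) e he)

theorem isAssociatedForm_assocForm (hn : 2 ≤ n) (hd : 3 ≤ d) (c : Expo n d → ℂ)
    (hc : Nondegenerate c) : IsAssociatedForm c (assocForm c) := by
  have h := (existsUnique_associatedForm hn hd c hc).exists
  unfold assocForm
  rw [dif_pos h]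
  exact h.choose_spec

theorem extendsToMorphism_one (hn : 2 ≤ n) (hd : 3 ≤ d) (Δ : CA n d)
    (hΔ : IsDiscriminant n d Δ) : ExtendsToMorphism Δ 1 := by
  choose e he using fun β : Expo n (n * (d - 2)) => exists_residue (by omega) (by omega) Δ
    (van_of_isDiscriminant hΔ) _ (isHomogeneous_monomial (1 : CA n d) (expo_degree β))
  refine ⟨fun β => C (β.1.multinomial : ℂ) * e β, ?_⟩
  intro c hc β
  have h0 : eval c Δ ≠ 0 := fun h => (hΔ.2 c).mp h hc
  have h1 := associatedForm_unique hn hd c hc _ _ (isAssociatedForm_assocForm hn hd c hc)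
    (isAssociatedForm_of c Δ h0 e he)
  rw [h1]
  have h2 : coeff β.1 (form fun β : Expo n (n * (d - 2)) =>
      (β.1.multinomial : ℂ) * (eval c (e β) / eval c Δ)) =
      (β.1.multinomial : ℂ) * (eval c (e β) / eval c Δ) := by
    classical
    unfold form
    rw [coeff_sum, Finset.sum_eq_single β]
    · rw [coeff_monomial, if_pos rfl]
    · intro γ _ hγ
      rw [coeff_monomial, if_neg]
      intro he
      exact hγ (Subtype.ext he)
    · intro h; exact absurd (Finset.mem_univ _) h
  rw [coeff_C_mul, h2, pow_one, map_mul, eval_C]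
  field_simp

theorem minExponent_eq_one (hn : 2 ≤ n) (hd : 3 ≤ d) (Δ : CA n d)
    (hΔ : IsDiscriminant n d Δ) : minExponent Δ = 1 := by
  have h1 : 1 ∈ {p : ℕ | 0 < p ∧ ExtendsToMorphism Δ p} :=
    ⟨one_pos, extendsToMorphism_one hn hd Δ hΔ⟩
  have h2 : sInf {p : ℕ | 0 < p ∧ ExtendsToMorphism Δ p} ≤ 1 := Nat.sInf_le h1
  have h3 := (Nat.sInf_mem ⟨1, h1⟩).1
  unfold minExponent
  omega

end Pool.Agent.TH211.AF
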