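import Pool.Agent.TH211.AF.Core

set_option autoImplicit false

namespace Pool.Agent.TH211.AF

open MvPolynomial

variable {n d : ℕ}

section Gen

variable {R : Type} [CommRing R]

lemma hc_mul {m k l : ℕ} (q h : MvPolynomial (Fin n) R) (hh : h.IsHomogeneous m)
    (hk : k = l + m) : homogeneousComponent k (q * h) = homogeneousComponent l q * h := by
  classical
  conv_lhs => rw [← sum_homogeneousComponent q, Finset.sum_mul, map_sum]
  have h1 : ∀ i, homogeneousComponent k (homogeneousComponent i q * h) =
      if k = i + m then homogeneousComponent i q * h else 0 := by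
    intro i
    apply homogeneousComponent_of_mem
    exact (homogeneousComponent_isHomogeneous i q).mul hh
  rw [Finset.sum_congr rfl (fun i _ => h1 i)]
  by_cases hl : l < q.totalDegree + 1
  · rw [Finset.sum_eq_single l]
    · rw [if_pos hk]
    · intro i _ hi
      rw [if_neg]
      omega
    · intro h; exact absurd (Finset.mem_range.mpr hl) h
  · rw [homogeneousComponent_eq_zero l q (by omega), zero_mul]
    apply Finset.sum_eq_zero
    intro i hi
    rw [Finset.mem_range] at hi
    rw [if_neg]
    omega

lemma hc_mul_zero {m k : ℕ} (q h : MvPolynomial (Fin n) R) (hh : h.IsHomogeneous m)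
    (hk : k < m) : homogeneousComponent k (q * h) = 0 := by
  classical
  conv_lhs => rw [← sum_homogeneousComponent q, Finset.sum_mul, map_sum]
  apply Finset.sum_eq_zero
  intro i _
  rw [homogeneousComponent_of_mem ((homogeneousComponent_isHomogeneous i q).mul hh), if_neg]
  omega

attribute [local instance] MvPolynomial.gradedAlgebra

lemma jac_isHomogeneous (a : Expo n d → R) :
    (jac a).IsHomogeneous (homogeneousSubmodule (Fin n) R) := by
  unfold jac
  apply Ideal.homogeneous_span
  rintro _ ⟨i, rfl⟩
  exact ⟨d - 1, d1_isHomogeneous a i⟩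

lemma hc_mem_jac (a : Expo n d → R) {x : MvPolynomial (Fin n) R} (hx : x ∈ jac a) (k : ℕ) :
    homogeneousComponent k x ∈ jac a :=
  homogeneousComponent_mem_of_mem (jac_isHomogeneous a) hx k

lemma hess_isHomogeneous (a : Expo n d → R) : (hess a).IsHomogeneous (n * (d - 2)) := by
  unfold hess
  rw [Matrix.det_apply]
  apply IsHomogeneous.sum
  intro σ _
  have h1 : (∏ i, (Matrix.of fun i j : Fin n => pderiv i (pderiv j (form a))) (σ i) i).IsHomogeneous
      (∑ _i : Fin n, (d - 2)) := by
    apply IsHomogeneous.prod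
    intro i _
    have h2 := (d1_isHomogeneous a i).pderiv (i := σ i)
    rw [Nat.sub_sub] at h2
    exact h2
  rw [Finset.sum_const, Finset.card_univ, Fintype.card_fin, smul_eq_mul] at h1
  rcases Int.units_eq_one_or (Equiv.Perm.sign σ) with hs | hs
  · rw [hs, one_smul]; exact h1
  · rw [hs, Units.neg_smul, one_smul]; exact h1.neg

lemma mem_jac_of_X_mul (a : Expo n d → R) (x : MvPolynomial (Fin n) R)
    (h : ∀ β : Fin n →₀ ℕ, x.coeff β ≠ 0 → β ≠ 0) :
    x * hess a ∈ jac a := by
  classical
  rw [x.as_sum, Finset.sum_mul]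
  apply Ideal.sum_mem
  intro β hβ
  have hβ0 : β ≠ 0 := h β (mem_support_iff.mp hβ)
  obtain ⟨j, hj⟩ : ∃ j, β j ≠ 0 := by
    by_contra hcon
    push Not at hcon
    exact hβ0 (Finsupp.ext hcon)
  have h1 : (monomial β (x.coeff β) : MvPolynomial (Fin n) R) =
      monomial (β - Finsupp.single j 1) (x.coeff β) * X j := by
    rw [X, monomial_mul, mul_one, tsub_add_cancel_of_le]
    rw [Finsupp.single_le_iff]
    omega
  rw [h1, mul_assoc]
  exact Ideal.mul_mem_left _ _ (X_mul_hess_mem a j)

end Gen

/-- all products of `x` with monomials of degree `N` lie in the universal Jacobian ideal -/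
def Tors (N : ℕ) (x : CP n d) : Prop :=
  ∀ β : Fin n →₀ ℕ, β.degree = N → monomial β 1 * x ∈ jac (X : Expo n d → CA n d)

lemma Tors.X_mul {N : ℕ} {x : CP n d} (h : Tors (N + 1) x) (j : Fin n) : Tors N (X j * x) := by
  intro β hβ
  have h1 := h (β + Finsupp.single j 1) (by rw [map_add, hβ, Finsupp.degree_single])
  have h2 : (monomial (β + Finsupp.single j 1) 1 : CP n d) = monomial β 1 * X j := by
    rw [X, monomial_mul, mul_one]
  rwa [h2, mul_assoc] at h1

lemma Tors.zero {x : CP n d} (h : Tors 0 x) : x ∈ jac (X : Expo n d → CA n d) := by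
  have h1 := h 0 (by simp)
  simpa using h1

theorem mem_jac_of_tors (hn : 1 ≤ n) (hd : 2 ≤ d) (N : ℕ) : ∀ (k : ℕ) (x : CP n d),
    x.IsHomogeneous k → n * (d - 2) < k → Tors N x → x ∈ jac (X : Expo n d → CA n d) := by
  induction N with
  | zero => intro k x _ _ h; exact h.zero
  | succ N ih =>
    intro k x hx hk h
    obtain ⟨q, y, hy, he⟩ := colon_hess hn hd x fun j =>
      ih (1 + k) (X j * x) ((isHomogeneous_X _ j).mul hx) (by omega) (h.X_mul j)
    have h1 := congrArg (homogeneousComponent k) he
    rw [homogeneousComponent_eq_self hx, map_add,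
      hc_mul (l := k - n * (d - 2)) q _ (hess_isHomogeneous _) (by omega)] at h1
    rw [h1]
    apply Ideal.add_mem _ (hc_mem_jac _ hy k)
    apply mem_jac_of_X_mul
    intro β hβ h0
    rw [coeff_homogeneousComponent, if_neg] at hβ
    · exact hβ rfl
    · rw [h0, map_zero]; omega

theorem exists_C_mul_hess (hn : 1 ≤ n) (hd : 2 ≤ d) (N : ℕ) (x : CP n d)
    (hx : x.IsHomogeneous (n * (d - 2))) (h : Tors N x) :
    ∃ c : CA n d, x - C c * hess (X : Expo n d → CA n d) ∈ jac (X : Expo n d → CA n d) := by
  have h' : Tors (N + 1) x := by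
    intro β hβ
    obtain ⟨j, hj⟩ : ∃ j, β j ≠ 0 := by
      by_contra hcon
      push Not at hcon
      have : β = 0 := Finsupp.ext hcon
      rw [this, map_zero] at hβ
      omega
    have h1 : (monomial β 1 : CP n d) = X j * monomial (β - Finsupp.single j 1) 1 := by
      rw [X, monomial_mul, mul_one, add_tsub_cancel_of_le]
      rw [Finsupp.single_le_iff]
      omega
    rw [h1, mul_assoc]
    apply Ideal.mul_mem_left
    apply h
    have h2 : (β - Finsupp.single j 1) + Finsupp.single j 1 = β := by
      rw [tsub_add_cancel_of_le]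
      rw [Finsupp.single_le_iff]
      omega
    have h3 := congrArg Finsupp.degree h2
    rw [map_add, Finsupp.degree_single, hβ] at h3
    omega
  obtain ⟨q, y, hy, he⟩ := colon_hess hn hd x fun j =>
      mem_jac_of_tors hn hd N (1 + n * (d - 2)) (X j * x) ((isHomogeneous_X _ j).mul hx)
        (by omega) (h'.X_mul j)
  have h1 := congrArg (homogeneousComponent (n * (d - 2))) he
  rw [homogeneousComponent_eq_self hx, map_add,
      hc_mul (l := 0) q _ (hess_isHomogeneous _) (by omega), homogeneousComponent_zero] at h1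
  refine ⟨q.coeff 0, ?_⟩
  rw [h1, add_sub_cancel_right]
  exact hc_mem_jac _ hy _

end Pool.Agent.TH211.AF
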