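import Mathlib

set_option autoImplicit false

/-!
A monomial order that first compares a weight and then refines by a given monomial order, and the
fact that polynomials with pairwise coprime leading monomials have the leading monomials generating
the initial ideal.
-/

namespace Pool.Agent.TH211.AF

open MvPolynomial

open scoped MonomialOrder

section WOrder

variable {σ : Type}

/-- type synonym -/
def WSyn (_m : MonomialOrder σ) (_w : σ → ℕ) : Type := σ →₀ ℕ

variable (m : MonomialOrder σ) (w : σ → ℕ)

noncomputable instance : AddCommMonoid (WSyn m w) := inferInstanceAs (AddCommMonoid (σ →₀ ℕ))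

/-- the comparison key -/
noncomputable def wkey (f : WSyn m w) : Lex (ℕ × m.syn) :=
  toLex (Finsupp.weight w (show σ →₀ ℕ from f), m.toSyn (show σ →₀ ℕ from f))

lemma wkey_injective : Function.Injective (wkey m w) := by
  intro a b h
  unfold wkey at h
  have h1 := toLex.injective h
  have h2 := (Prod.mk.inj h1).2
  exact m.toSyn.injective h2

lemma wkey_le_iff (a b : WSyn m w) : wkey m w a ≤ wkey m w b ↔
    Finsupp.weight w (show σ →₀ ℕ from a) < Finsupp.weight w (show σ →₀ ℕ from b) ∨
    (Finsupp.weight w (show σ →₀ ℕ from a) = Finsupp.weight w (show σ →₀ ℕ from b) ∧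
      m.toSyn (show σ →₀ ℕ from a) ≤ m.toSyn (show σ →₀ ℕ from b)) := by
  unfold wkey
  exact Prod.Lex.toLex_le_toLex

noncomputable instance : LinearOrder (WSyn m w) :=
  LinearOrder.lift' (wkey m w) (wkey_injective m w)

lemma wsyn_le_iff (a b : WSyn m w) : a ≤ b ↔
    Finsupp.weight w (show σ →₀ ℕ from a) < Finsupp.weight w (show σ →₀ ℕ from b) ∨
    (Finsupp.weight w (show σ →₀ ℕ from a) = Finsupp.weight w (show σ →₀ ℕ from b) ∧
      m.toSyn (show σ →₀ ℕ from a) ≤ m.toSyn (show σ →₀ ℕ from b)) :=
  wkey_le_iff m w a b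

instance : IsOrderedAddMonoid (WSyn m w) where
  add_le_add_left a b h c := by
    rw [wsyn_le_iff] at h ⊢
    have e1 : ∀ x y : WSyn m w, Finsupp.weight w (show σ →₀ ℕ from (x + y)) =
        Finsupp.weight w (show σ →₀ ℕ from x) + Finsupp.weight w (show σ →₀ ℕ from y) :=
      fun x y => map_add (Finsupp.weight w) _ _
    have e2 : ∀ x y : WSyn m w, m.toSyn (show σ →₀ ℕ from (x + y)) =
        m.toSyn (show σ →₀ ℕ from x) + m.toSyn (show σ →₀ ℕ from y) :=
      fun x y => map_add m.toSyn _ _
    rw [e1, e1, e2, e2]
    rcases h with h | ⟨h, h'⟩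
    · left; omega
    · right; exact ⟨by omega, by gcongr⟩

instance : WellFoundedLT (WSyn m w) := by
  constructor
  have h : WellFounded (fun a b : Lex (ℕ × m.syn) => a < b) := wellFounded_lt
  exact InvImage.wf (wkey m w) h

/-- first compare weights, then use `m` -/
noncomputable def wOrder : MonomialOrder σ where
  syn := WSyn m w
  toSyn := { toFun := fun a => a, invFun := fun a => a, left_inv := fun _ => rfl,
             right_inv := fun _ => rfl, map_add' := fun _ _ => rfl }
  toSyn_monotone := by
    intro a b h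
    change (show WSyn m w from a) ≤ (show WSyn m w from b)
    rw [wsyn_le_iff]
    have h1 : Finsupp.weight w a ≤ Finsupp.weight w b := by
      obtain ⟨c, rfl⟩ := exists_add_of_le h
      rw [map_add]; omega
    rcases h1.lt_or_eq with h1 | h1
    · left; exact h1
    · right; exact ⟨h1, m.toSyn_monotone h⟩

lemma wOrder_lt_of_weight_lt {a b : σ →₀ ℕ} (h : Finsupp.weight w a < Finsupp.weight w b) :
    a ≺[wOrder m w] b := by
  have key : ∀ x y : σ →₀ ℕ, (wOrder m w).toSyn x ≤ (wOrder m w).toSyn y ↔
    Finsupp.weight w x < Finsupp.weight w y ∨ (Finsupp.weight w x = Finsupp.weight w y ∧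
      m.toSyn x ≤ m.toSyn y) := fun x y => wsyn_le_iff m w x y
  rw [lt_iff_le_not_ge, key, key]
  constructor
  · exact Or.inl h
  · intro hc
    omega

end WOrder

end Pool.Agent.TH211.AF
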