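import Pool.Agent.TH211.AF.Defs
import Pool.Agent.TH211.AF.Order
import Pool.Agent.TH211.AF.Coprime

set_option autoImplicit false

namespace Pool.Agent.TH211.AF

open MvPolynomial

open scoped MonomialOrder

section General

variable {σ : Type} {K : Type} [Field K]

lemma degree_of_top (m : MonomialOrder σ) (w : σ → ℕ) (p : MvPolynomial σ K) (D : σ →₀ ℕ)
    (hD : p.coeff D ≠ 0)
    (h : ∀ e ∈ p.support, e ≠ D → Finsupp.weight w e < Finsupp.weight w D) :
    (wOrder m w).degree p = D := by
  have hp : p ≠ 0 := by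
    intro h0; rw [h0, coeff_zero] at hD; exact hD rfl
  by_contra hne
  have h1 := h _ ((wOrder m w).degree_mem_support hp) hne
  have h2 := wOrder_lt_of_weight_lt m w h1
  have h3 := (wOrder m w).le_degree (mem_support_iff.mpr hD)
  exact absurd h3 (not_le.mpr h2)

lemma reduce_exists (m : MonomialOrder σ) (x b : MvPolynomial σ K) (hb : b ≠ 0)
    (h : m.degree b ≤ m.degree x) :
    ∃ q : MvPolynomial σ K, x - q * b = 0 ∨
      m.toSyn (m.degree (x - q * b)) < m.toSyn (m.degree x) := by
  obtain ⟨E, hE⟩ : ∃ E, E + m.degree b = m.degree x :=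
    ⟨m.degree x - m.degree b, tsub_add_cancel_of_le h⟩
  obtain ⟨c, hc⟩ : ∃ c, c = m.leadingCoeff x / m.leadingCoeff b := ⟨_, rfl⟩
  have hlb : m.leadingCoeff b ≠ 0 := m.leadingCoeff_ne_zero_iff.mpr hb
  have hc' : c * m.leadingCoeff b = m.leadingCoeff x := by rw [hc]; field_simp
  refine ⟨monomial E c, ?_⟩
  by_cases h0 : x - monomial E c * b = 0
  · exact Or.inl h0
  right
  have hdeg : m.toSyn (m.degree (x - monomial E c * b)) ≤ m.toSyn (m.degree x) := by
    refine m.degree_sub_le.trans (sup_le le_rfl ?_)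
    refine m.degree_mul_le.trans ?_
    rw [← hE, map_add, map_add]
    gcongr
    exact m.degree_monomial_le _
  refine lt_of_le_of_ne hdeg ?_
  intro he
  have h1 := m.toSyn.injective he
  have h2 := m.degree_mem_support h0
  rw [h1, mem_support_iff, coeff_sub] at h2
  apply h2
  have h3 : (monomial E c * b).coeff (m.degree x) = m.leadingCoeff x := by
    rw [← hE, coeff_monomial_mul]
    exact hc'
  rw [h3]
  exact sub_self _

/-- all monomials have weight at most `k` -/
def WLe (w : σ → ℕ) (p : MvPolynomial σ K) (k : ℕ) : Prop :=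
  ∀ e ∈ p.support, Finsupp.weight w e ≤ k

lemma WLe.mul {w : σ → ℕ} {p q : MvPolynomial σ K} {k l : ℕ} (hp : WLe w p k) (hq : WLe w q l) :
    WLe w (p * q) (k + l) := by
  classical
  intro e he
  have := support_mul p q he
  rw [Finset.mem_add] at this
  obtain ⟨a, ha, b, hb, rfl⟩ := this
  rw [map_add]
  exact add_le_add (hp a ha) (hq b hb)

lemma WLe.one {w : σ → ℕ} : WLe w (1 : MvPolynomial σ K) 0 := by
  classical
  intro e he
  have : e = 0 := by
    by_contra hne
    rw [mem_support_iff, coeff_one, if_neg (Ne.symm hne)] at he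
    exact he rfl
  rw [this, map_zero]

lemma WLe.prod {w : σ → ℕ} {ι : Type} (s : Finset ι) (p : ι → MvPolynomial σ K) (k : ι → ℕ)
    (h : ∀ i ∈ s, WLe w (p i) (k i)) : WLe w (∏ i ∈ s, p i) (∑ i ∈ s, k i) := by
  classical
  induction s using Finset.induction_on with
  | empty => simpa using WLe.one
  | insert a s ha ih =>
    rw [Finset.prod_insert ha, Finset.sum_insert ha]
    exact (h a (Finset.mem_insert_self _ _)).mul
      (ih fun i hi => h i (Finset.mem_insert_of_mem hi))

lemma WLe.mono {w : σ → ℕ} {p : MvPolynomial σ K} {k l : ℕ} (hp : WLe w p k) (h : k ≤ l) :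
    WLe w p l := fun e he => (hp e he).trans h

lemma WLe.sum {w : σ → ℕ} {ι : Type} (s : Finset ι) (p : ι → MvPolynomial σ K) (k : ℕ)
    (h : ∀ i ∈ s, WLe w (p i) k) : WLe w (∑ i ∈ s, p i) k := by
  classical
  intro e he
  have h1 := support_sum he
  rw [Finset.mem_biUnion] at h1
  obtain ⟨i, hi, hi'⟩ := h1
  exact h i hi e hi'

lemma WLe.smul {w : σ → ℕ} {p : MvPolynomial σ K} {k : ℕ} (hp : WLe w p k) (c : ℤˣ) :
    WLe w (c • p) k := by
  intro e he
  apply hp
  rw [mem_support_iff] at he ⊢
  intro h0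
  apply he
  rcases Int.units_eq_one_or c with rfl | rfl
  · simpa using h0
  · simp [h0]

end General

end Pool.Agent.TH211.AF
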