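import Pool.Agent.TH211.AF.Graded

set_option autoImplicit false

namespace Pool.Agent.TH211.AF

open MvPolynomial

variable {n d : ℕ}

section maps

variable {R S : Type} [CommRing R] [CommRing S]

lemma map_form (φ : R →+* S) (a : Expo n d → R) :
    map φ (form a) = form (fun α => φ (a α)) := by
  unfold form
  rw [map_sum]
  exact Finset.sum_congr rfl fun α _ => map_monomial _ _ _

lemma map_hess (φ : R →+* S) (a : Expo n d → R) :
    map φ (hess a) = hess (fun α => φ (a α)) := by
  unfold hess
  rw [RingHom.map_det]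
  congr 1
  ext i j : 2
  simp only [RingHom.mapMatrix_apply, Matrix.map_apply, Matrix.of_apply]
  rw [← pderiv_map, ← pderiv_map, map_form]

lemma map_mem_jac (φ : R →+* S) (a : Expo n d → R) {x : MvPolynomial (Fin n) R}
    (hx : x ∈ jac a) : map φ x ∈ jac (fun α => φ (a α)) := by
  unfold jac at hx ⊢
  rw [Ideal.mem_span_range_iff_exists_fun] at hx ⊢
  obtain ⟨c, rfl⟩ := hx
  refine ⟨fun i => map φ (c i), ?_⟩
  rw [map_sum]
  apply Finset.sum_congr rfl
  intro i _
  rw [map_mul, ← pderiv_map, map_form]

lemma homog_eq_form {k : ℕ} (x : MvPolynomial (Fin n) R) (hx : x.IsHomogeneous k) :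
    x = form (fun β : Expo n k => x.coeff β.1) := by
  classical
  ext γ
  unfold form
  rw [coeff_sum]
  by_cases hγ : γ.degree = k
  · have hγ' : γ ∈ (Finset.univ : Finset (Fin n)).finsuppAntidiag k := by
      rw [Finset.mem_finsuppAntidiag]
      refine ⟨?_, Finset.subset_univ _⟩
      rw [← hγ, Finsupp.degree_eq_sum]
    rw [Finset.sum_eq_single (⟨γ, hγ'⟩ : Expo n k)]
    · rw [coeff_monomial, if_pos rfl]
    · intro β _ hβ
      rw [coeff_monomial, if_neg]
      intro he
      exact hβ (Subtype.ext he)
    · intro h; exact absurd (Finset.mem_univ _) h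
  · rw [hx.coeff_eq_zero hγ, Finset.sum_eq_zero]
    intro β _
    rw [coeff_monomial, if_neg]
    intro he
    apply hγ
    rw [← he, Finsupp.degree_eq_sum]
    exact expo_sum β

lemma expo_degree {k : ℕ} (β : Expo n k) : β.1.degree = k := by
  rw [Finsupp.degree_eq_sum]; exact expo_sum β

end maps

/-- specialisation of the coefficients -/
noncomputable def spz (c : Expo n d → ℂ) : CP n d →+* MvPolynomial (Fin n) ℂ := map (eval c)

lemma spz_jac (c : Expo n d → ℂ) {x : CP n d} (hx : x ∈ jac (X : Expo n d → CA n d)) :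
    spz c x ∈ jac c := by
  have := map_mem_jac (eval c) _ hx
  simpa [spz] using this

lemma spz_hess (c : Expo n d → ℂ) : spz c (hess (X : Expo n d → CA n d)) = hess c := by
  unfold spz
  rw [map_hess]
  simp

lemma spz_d1 (c : Expo n d → ℂ) (i : Fin n) :
    spz c (pderiv i (form (X : Expo n d → CA n d))) = pderiv i (form c) := by
  unfold spz
  rw [← pderiv_map, map_form]
  simp

/-- If all monomials of degree `k` lie in the Jacobian ideal of the form `c₀`, then there is a
polynomial `a` in the coefficients with `a(c₀) = 1` whose products with all monomials of degree `k`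
lie in the universal Jacobian ideal. -/
theorem exists_coeff (c₀ : Expo n d → ℂ) (k : ℕ)
    (h : ∀ β : Expo n k, (monomial β.1 1 : MvPolynomial (Fin n) ℂ) ∈ jac c₀) :
    ∃ a : CA n d, eval c₀ a = 1 ∧
      ∀ β : Expo n k, C a * monomial β.1 1 ∈ jac (X : Expo n d → CA n d) := by
  classical
  have h1 : ∀ β : Expo n k, ∃ g : Fin n → MvPolynomial (Fin n) ℂ,
      ∑ i, g i * pderiv i (form c₀) = monomial β.1 1 := by
    intro β
    have := h β
    unfold jac at this
    rwa [Ideal.mem_span_range_iff_exists_fun] at this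
  choose g hg using h1
  let U : Expo n k → CP n d := fun β =>
    homogeneousComponent k (∑ i, map (C : ℂ →+* CA n d) (g β i) *
      pderiv i (form (X : Expo n d → CA n d)))
  have hU : ∀ β, U β ∈ jac (X : Expo n d → CA n d) := by
    intro β
    apply hc_mem_jac
    apply Ideal.sum_mem
    intro i _
    exact Ideal.mul_mem_left _ _ (Ideal.subset_span ⟨i, rfl⟩)
  have hUh : ∀ β, (U β).IsHomogeneous k := fun β => homogeneousComponent_isHomogeneous _ _
  let M : Matrix (Expo n k) (Expo n k) (CA n d) := Matrix.of fun β γ => (U β).coeff γ.1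
  have hM : M.map (eval c₀) = 1 := by
    ext β γ
    have e1 : spz c₀ (∑ i, map (C : ℂ →+* CA n d) (g β i) *
        pderiv i (form (X : Expo n d → CA n d))) = monomial β.1 1 := by
      rw [map_sum, ← hg β]
      apply Finset.sum_congr rfl
      intro i _
      rw [map_mul, spz_d1]
      congr 1
      unfold spz
      rw [map_map]
      have : (eval c₀).comp (C : ℂ →+* CA n d) = RingHom.id ℂ := by
        ext r; simp
      rw [this, map_id]
    have e2 : eval c₀ ((U β).coeff γ.1) = (monomial β.1 (1 : ℂ)).coeff γ.1 := by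
      rw [← e1]
      change eval c₀ (coeff γ.1 (homogeneousComponent k _)) = coeff γ.1 (map (eval c₀) _)
      rw [coeff_homogeneousComponent, if_pos (expo_degree γ), coeff_map]
    rw [Matrix.map_apply]
    change eval c₀ ((U β).coeff γ.1) = _
    rw [e2, coeff_monomial, Matrix.one_apply]
    by_cases hβγ : β = γ
    · rw [if_pos hβγ, if_pos (by rw [hβγ])]
    · rw [if_neg hβγ, if_neg]
      intro he; exact hβγ (Subtype.ext he)
  refine ⟨M.det, ?_, ?_⟩
  · have := RingHom.map_det (eval c₀) M
    rw [this]
    have h2 : (eval c₀).mapMatrix M = M.map (eval c₀) := rfl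
    rw [h2, hM, Matrix.det_one]
  · intro γ
    have h3 : C M.det * monomial γ.1 1 = ∑ β, C (M.adjugate γ β) * U β := by
      have h4 : ∀ β, U β = ∑ δ : Expo n k, monomial δ.1 (M β δ) := by
        intro β
        conv_lhs => rw [homog_eq_form (U β) (hUh β)]
        rfl
      have h5 : ∑ β, C (M.adjugate γ β) * U β =
          ∑ δ : Expo n k, monomial δ.1 (∑ β, M.adjugate γ β * M β δ) := by
        rw [Finset.sum_congr rfl (fun β _ => by rw [h4 β, Finset.mul_sum])]
        rw [Finset.sum_comm]
        apply Finset.sum_congr rfl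
        intro δ _
        rw [map_sum]
        apply Finset.sum_congr rfl
        intro β _
        rw [C_mul_monomial]
      rw [h5]
      have h6 : ∀ δ, ∑ β, M.adjugate γ β * M β δ = if γ = δ then M.det else 0 := by
        intro δ
        have := congrFun (congrFun (Matrix.adjugate_mul M) γ) δ
        rw [Matrix.mul_apply] at this
        rw [this, Matrix.smul_apply, Matrix.one_apply, smul_eq_mul, mul_ite, mul_one, mul_zero]
      rw [Finset.sum_congr rfl (fun δ _ => by rw [h6 δ])]
      rw [Finset.sum_eq_single γ]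
      · rw [if_pos rfl, C_mul_monomial, mul_one]
      · intro δ _ hδ
        rw [if_neg (Ne.symm hδ), map_zero]
      · intro h; exact absurd (Finset.mem_univ γ) h
    rw [h3]
    apply Ideal.sum_mem
    intro β _
    exact Ideal.mul_mem_left _ _ (hU β)

/-- The Jacobian ideal of a nondegenerate form contains all monomials of some degree. -/
theorem exists_pow (hn : 1 ≤ n) (c : Expo n d → ℂ) (hc : Nondegenerate c) :
    ∃ N : ℕ, ∀ β : Expo n N, (monomial β.1 1 : MvPolynomial (Fin n) ℂ) ∈ jac c := by
  have h1 : ∀ j : Fin n, ∃ N : ℕ, (X j : MvPolynomial (Fin n) ℂ) ^ N ∈ jac c := by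
    intro j
    have h2 : (X j : MvPolynomial (Fin n) ℂ) ∈ (jac c).radical := by
      rw [← vanishingIdeal_zeroLocus_eq_radical (K := ℂ) (jac c), mem_vanishingIdeal_iff]
      intro z hz
      have h3 : z = 0 := by
        apply hc
        intro i
        have := hz _ (Ideal.subset_span ⟨i, rfl⟩ : pderiv i (form c) ∈ jac c)
        exact this
      rw [h3]
      simp
    exact Ideal.mem_radical_iff.mp h2
  choose N hN using h1
  refine ⟨n * (Finset.univ.sup N), ?_⟩
  intro β
  obtain ⟨j, hj⟩ : ∃ j, N j ≤ β.1 j := by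
    by_contra hcon
    push Not at hcon
    have h4 := expo_sum β
    have h5 : ∑ i, β.1 i < ∑ _i : Fin n, Finset.univ.sup N := by
      apply Finset.sum_lt_sum_of_nonempty
      · exact ⟨⟨0, by omega⟩, Finset.mem_univ _⟩
      · intro i _
        exact (hcon i).trans_le (Finset.le_sup (Finset.mem_univ i))
    rw [h4, Finset.sum_const, Finset.card_univ, Fintype.card_fin, smul_eq_mul] at h5
    exact lt_irrefl _ h5
  have h6 : (monomial β.1 1 : MvPolynomial (Fin n) ℂ) =
      monomial (β.1 - Finsupp.single j (N j)) 1 * X j ^ N j := by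
    rw [X_pow_eq_monomial, monomial_mul, mul_one, tsub_add_cancel_of_le]
    rwa [Finsupp.single_le_iff]
  rw [h6]
  exact Ideal.mul_mem_left _ _ (hN j)

end Pool.Agent.TH211.AF
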