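import Pool.Agent.TH211.AF.Lead

set_option autoImplicit false

namespace Pool.Agent.TH211.AF

open MvPolynomial

open scoped MonomialOrder

variable {n d : ℕ}

lemma expo_sum (α : Expo n d) : ∑ i, α.1 i = d := by
  have := α.2
  rw [Finset.mem_finsuppAntidiag] at this
  exact this.1

/-- the exponent vector of `z_i ^ d` -/
noncomputable def sp (i : Fin n) : Expo n d := ⟨Finsupp.single i d, by
  classical
  rw [Finset.mem_finsuppAntidiag]
  refine ⟨?_, Finset.subset_univ _⟩
  simp [Finsupp.single_apply]⟩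

/-- the coefficient ring -/
abbrev CA (n d : ℕ) : Type := MvPolynomial (Expo n d) ℂ

/-- forms over the coefficient ring -/
abbrev CP (n d : ℕ) : Type := MvPolynomial (Fin n) (CA n d)

/-- everything in one polynomial ring -/
abbrev CQ (n d : ℕ) : Type := MvPolynomial (Fin n ⊕ Expo n d) ℂ

/-- the isomorphism -/
noncomputable def eQ (n d : ℕ) : CP n d ≃ₐ[ℂ] CQ n d := (sumAlgEquiv ℂ (Fin n) (Expo n d)).symm

lemma eQ_X (i : Fin n) : eQ n d (X i) = X (Sum.inl i) := sumAlgEquiv_symm_X ..

lemma eQ_C_X (α : Expo n d) : eQ n d (C (X α)) = X (Sum.inr α) := sumAlgEquiv_symm_C_X ..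

lemma eQ_C_C (c : ℂ) : eQ n d (C (C c)) = C c := sumAlgEquiv_symm_C_C ..

lemma eQ_C (q : CA n d) : eQ n d (C q) = rename Sum.inr q := by
  induction q using MvPolynomial.induction_on with
  | C a => rw [eQ_C_C, rename_C]
  | add p q hp hq => rw [C_add, map_add, hp, hq, map_add]
  | mul_X p i hp => rw [C_mul, map_mul, hp, eQ_C_X, map_mul, rename_X]

/-- the exponent of a monomial in both kinds of variables -/
noncomputable def ex (s : Fin n →₀ ℕ) (α : Expo n d) : (Fin n ⊕ Expo n d) →₀ ℕ :=
  Finsupp.sumElim s (Finsupp.single α 1)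

lemma ex_inl (s : Fin n →₀ ℕ) (α : Expo n d) (i : Fin n) : ex s α (Sum.inl i) = s i := rfl

lemma ex_inr (s : Fin n →₀ ℕ) (α β : Expo n d) :
    ex s α (Sum.inr β) = Finsupp.single α 1 β := rfl

lemma ex_inj {s t : Fin n →₀ ℕ} {α β : Expo n d} (h : ex s α = ex t β) : s = t ∧ α = β := by
  constructor
  · ext i
    rw [← ex_inl s α, h, ex_inl]
  · have h1 : ex s α (Sum.inr α) = ex t β (Sum.inr α) := by rw [h]
    rw [ex_inr, ex_inr, Finsupp.single_eq_same] at h1
    by_contra hne
    rw [Finsupp.single_eq_of_ne hne] at h1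
    exact one_ne_zero h1

lemma eQ_monomial (s : Fin n →₀ ℕ) (α : Expo n d) (c : ℂ) :
    eQ n d (monomial s (X α * C c)) = monomial (ex s α) c := by
  have h1 : (monomial s (X α * C c) : CP n d) = C (X α) * C (C c) * ∏ i, X i ^ s i := by
    rw [monomial_eq, C_mul, Finsupp.prod_fintype]
    intro i; rw [pow_zero]
  have h2 : (monomial (ex s α) c : CQ n d) =
      C c * ((∏ i, X (Sum.inl i) ^ s i) * X (Sum.inr α)) := by
    rw [monomial_eq, Finsupp.prod_fintype _ _ (fun i => by rw [pow_zero]),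
      Fintype.prod_sum_type]
    congr 2
    rw [Finset.prod_eq_single α]
    · rw [ex_inr, Finsupp.single_eq_same, pow_one]
    · intro β _ hβ
      rw [ex_inr, Finsupp.single_eq_of_ne hβ, pow_zero]
    · intro h; exact absurd (Finset.mem_univ α) h
  rw [h1, h2]
  simp only [map_mul, map_prod, map_pow, eQ_X, eQ_C_X, eQ_C_C]
  ring

/-- first derivatives in the big ring -/
lemma eQ_d1 (i : Fin n) : eQ n d (pderiv i (form (X : Expo n d → CA n d))) =
    ∑ α : Expo n d, monomial (ex (α.1 - Finsupp.single i 1) α) ((α.1 i : ℕ) : ℂ) := by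
  unfold form
  rw [map_sum, map_sum]
  apply Finset.sum_congr rfl
  intro α _
  rw [pderiv_monomial]
  have : (X α * ((α.1 i : ℕ) : CA n d) : CA n d) = X α * C ((α.1 i : ℕ) : ℂ) := by
    rw [map_natCast]
  rw [this, eQ_monomial]

lemma eQ_d2 (i j : Fin n) : eQ n d (pderiv i (pderiv j (form (X : Expo n d → CA n d)))) =
    ∑ α : Expo n d, monomial (ex (α.1 - Finsupp.single j 1 - Finsupp.single i 1) α)
      (((α.1 j * (α.1 - Finsupp.single j 1 : Fin n →₀ ℕ) i : ℕ)) : ℂ) := by
  unfold form
  rw [map_sum, map_sum, map_sum]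
  apply Finset.sum_congr rfl
  intro α _
  rw [pderiv_monomial, pderiv_monomial]
  have : (X α * ((α.1 j : ℕ) : CA n d) * (((α.1 - Finsupp.single j 1 : Fin n →₀ ℕ) i : ℕ) : CA n d) : CA n d) =
      X α * C (((α.1 j * (α.1 - Finsupp.single j 1 : Fin n →₀ ℕ) i : ℕ)) : ℂ) := by
    rw [map_natCast]; push_cast; ring
  rw [this, eQ_monomial]

/-- the weights: one on the coefficients of the powers `z_i ^ d` -/
noncomputable def wt (n d : ℕ) : Fin n ⊕ Expo n d → ℕ := by
  classical
  exact Sum.elim (fun _ => 0) (fun α => if ∃ i, α = sp i then 1 else 0)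

lemma weight_ex (s : Fin n →₀ ℕ) (α : Expo n d) :
    Finsupp.weight (wt n d) (ex s α) = wt n d (Sum.inr α) := by
  rw [Finsupp.weight_apply, Finsupp.sum_fintype _ _ (fun i => by rw [zero_smul]),
    Fintype.sum_sum_type]
  have h1 : ∑ i, ex s α (Sum.inl i) • wt n d (Sum.inl i) = 0 := by
    apply Finset.sum_eq_zero
    intro i _
    simp [wt]
  rw [h1, zero_add, Finset.sum_eq_single α]
  · rw [ex_inr, Finsupp.single_eq_same, one_smul]
  · intro β _ hβ
    rw [ex_inr, Finsupp.single_eq_of_ne hβ, zero_smul]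
  · intro h; exact absurd (Finset.mem_univ α) h

lemma wt_sp (i : Fin n) : wt n d (Sum.inr (sp i)) = 1 := by
  simp [wt]

lemma wt_le (α : Expo n d) : wt n d (Sum.inr α) ≤ 1 := by
  simp only [wt, Sum.elim_inr]
  split_ifs <;> simp

lemma wt_not_sp (α : Expo n d) (h : ∀ i, α ≠ sp i) : wt n d (Sum.inr α) = 0 := by
  simp only [wt, Sum.elim_inr]
  rw [if_neg]
  rintro ⟨i, hi⟩
  exact h i hi

lemma sp_apply (i j : Fin n) : (sp i : Expo n d).1 j = if i = j then d else 0 := by
  classical
  change Finsupp.single i d j = _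
  rw [Finsupp.single_apply]

lemma sp_inj (hd : d ≠ 0) {i j : Fin n} (h : (sp i : Expo n d) = sp j) : i = j := by
  have h1 : (sp i : Expo n d).1 i = (sp j : Expo n d).1 i := by rw [h]
  rw [sp_apply, sp_apply, if_pos rfl] at h1
  by_contra hne
  rw [if_neg (Ne.symm hne)] at h1
  exact hd h1

/-- the leading exponents of the first derivatives -/
noncomputable def D1 (n d : ℕ) (i : Fin n) : (Fin n ⊕ Expo n d) →₀ ℕ :=
  ex (Finsupp.single i (d - 1)) (sp i)

/-- the leading exponents of the diagonal second derivatives -/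
noncomputable def D2 (n d : ℕ) (i : Fin n) : (Fin n ⊕ Expo n d) →₀ ℕ :=
  ex (Finsupp.single i (d - 2)) (sp i)

/-- a base order -/
noncomputable def base (τ : Type) [Fintype τ] : MonomialOrder τ :=
  letI : LinearOrder τ := LinearOrder.lift' (Fintype.equivFin τ) (Equiv.injective _)
  MonomialOrder.lex

/-- the order we use -/
noncomputable def mo (n d : ℕ) : MonomialOrder (Fin n ⊕ Expo n d) := wOrder (base _) (wt n d)

lemma coeff_d1 (i : Fin n) (s : Fin n →₀ ℕ) (α : Expo n d)
    (hs : s = α.1 - Finsupp.single i 1) :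
    (eQ n d (pderiv i (form (X : Expo n d → CA n d)))).coeff (ex s α) = (α.1 i : ℂ) := by
  classical
  rw [eQ_d1, coeff_sum, Finset.sum_eq_single α]
  · rw [coeff_monomial, if_pos (by rw [hs])]
  · intro β _ hβ
    rw [coeff_monomial, if_neg]
    intro he
    exact hβ (ex_inj he).2
  · intro h; exact absurd (Finset.mem_univ α) h

lemma coeff_d2 (i j : Fin n) (s : Fin n →₀ ℕ) (α : Expo n d)
    (hs : s = α.1 - Finsupp.single j 1 - Finsupp.single i 1) :
    (eQ n d (pderiv i (pderiv j (form (X : Expo n d → CA n d))))).coeff (ex s α) =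
      ((α.1 j * (α.1 - Finsupp.single j 1 : Fin n →₀ ℕ) i : ℕ) : ℂ) := by
  classical
  rw [eQ_d2, coeff_sum, Finset.sum_eq_single α]
  · rw [coeff_monomial, if_pos (by rw [hs])]
  · intro β _ hβ
    rw [coeff_monomial, if_neg]
    intro he
    exact hβ (ex_inj he).2
  · intro h; exact absurd (Finset.mem_univ α) h

lemma support_d1 (i : Fin n) (e : (Fin n ⊕ Expo n d) →₀ ℕ)
    (he : e ∈ (eQ n d (pderiv i (form (X : Expo n d → CA n d)))).support) :
    ∃ α : Expo n d, e = ex (α.1 - Finsupp.single i 1) α ∧ α.1 i ≠ 0 := by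
  classical
  rw [eQ_d1] at he
  have h1 := support_sum he
  rw [Finset.mem_biUnion] at h1
  obtain ⟨α, -, hα⟩ := h1
  rw [mem_support_iff, coeff_monomial] at hα
  refine ⟨α, ?_, ?_⟩
  · by_contra hne
    rw [if_neg (Ne.symm hne)] at hα
    exact hα rfl
  · intro h0
    rw [h0] at hα
    simp at hα

lemma support_d2 (i j : Fin n) (e : (Fin n ⊕ Expo n d) →₀ ℕ)
    (he : e ∈ (eQ n d (pderiv i (pderiv j (form (X : Expo n d → CA n d))))).support) :
    ∃ α : Expo n d, e = ex (α.1 - Finsupp.single j 1 - Finsupp.single i 1) α ∧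
      α.1 j ≠ 0 ∧ (α.1 - Finsupp.single j 1 : Fin n →₀ ℕ) i ≠ 0 := by
  classical
  rw [eQ_d2] at he
  have h1 := support_sum he
  rw [Finset.mem_biUnion] at h1
  obtain ⟨α, -, hα⟩ := h1
  rw [mem_support_iff, coeff_monomial] at hα
  refine ⟨α, ?_, ?_, ?_⟩
  · by_contra hne
    rw [if_neg (Ne.symm hne)] at hα
    exact hα rfl
  · intro h0
    rw [h0] at hα
    simp at hα
  · intro h0
    rw [h0] at hα
    simp at hα

lemma degree_d1 (hd : 1 ≤ d) (i : Fin n) :
    (mo n d).degree (eQ n d (pderiv i (form (X : Expo n d → CA n d)))) = D1 n d i := by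
  apply degree_of_top
  · unfold D1
    rw [coeff_d1, sp_apply, if_pos rfl]
    · have : d ≠ 0 := by omega
      exact_mod_cast this
    · change _ = Finsupp.single i d - Finsupp.single i 1
      rw [← Finsupp.single_tsub]
  · intro e he hne
    obtain ⟨α, rfl, hα⟩ := support_d1 i e he
    unfold D1
    rw [weight_ex, weight_ex, wt_sp]
    have : ∀ k, α ≠ sp k := by
      rintro k rfl
      rw [sp_apply] at hα
      have hki : k = i := by
        by_contra h; rw [if_neg h] at hα; exact hα rfl
      subst hki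
      apply hne
      unfold D1
      congr 1
      change Finsupp.single k d - Finsupp.single k 1 = _
      rw [← Finsupp.single_tsub]
    rw [wt_not_sp α this]
    exact one_pos

lemma d1_ne_zero (hd : 1 ≤ d) (i : Fin n) :
    eQ n d (pderiv i (form (X : Expo n d → CA n d))) ≠ 0 := by
  intro h0
  have h1 := coeff_d1 i (α := (sp i : Expo n d)) (s := _) rfl
  rw [h0, coeff_zero, sp_apply, if_pos rfl] at h1
  have : d ≠ 0 := by omega
  exact this (by exact_mod_cast h1.symm)

lemma degree_d2 (hd : 2 ≤ d) (i : Fin n) :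
    (mo n d).degree (eQ n d (pderiv i (pderiv i (form (X : Expo n d → CA n d))))) = D2 n d i := by
  apply degree_of_top
  · unfold D2
    rw [coeff_d2, sp_apply, if_pos rfl]
    · have h1 : ((sp i : Expo n d).1 - Finsupp.single i 1 : Fin n →₀ ℕ) i = d - 1 := by
        rw [Finsupp.tsub_apply, sp_apply, if_pos rfl, Finsupp.single_eq_same]
      rw [h1]
      have : d * (d - 1) ≠ 0 := Nat.mul_ne_zero (by omega) (by omega)
      exact_mod_cast this
    · change _ = Finsupp.single i d - Finsupp.single i 1 - Finsupp.single i 1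
      rw [← Finsupp.single_tsub, ← Finsupp.single_tsub, Nat.sub_sub]
  · intro e he hne
    obtain ⟨α, rfl, hα, hα'⟩ := support_d2 i i e he
    unfold D2
    rw [weight_ex, weight_ex, wt_sp]
    have : ∀ k, α ≠ sp k := by
      rintro k rfl
      rw [sp_apply] at hα
      have hki : k = i := by
        by_contra h; rw [if_neg h] at hα; exact hα rfl
      subst hki
      apply hne
      unfold D2
      congr 1
      change Finsupp.single k d - Finsupp.single k 1 - Finsupp.single k 1 = _
      rw [← Finsupp.single_tsub, ← Finsupp.single_tsub, Nat.sub_sub]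
    rw [wt_not_sp α this]
    exact one_pos

lemma d2_ne_zero (hd : 2 ≤ d) (i : Fin n) :
    eQ n d (pderiv i (pderiv i (form (X : Expo n d → CA n d)))) ≠ 0 := by
  intro h0
  have h1 := coeff_d2 i i (α := (sp i : Expo n d)) (s := _) rfl
  have h2 : ((sp i : Expo n d).1 - Finsupp.single i 1 : Fin n →₀ ℕ) i = d - 1 := by
    rw [Finsupp.tsub_apply, sp_apply, if_pos rfl, Finsupp.single_eq_same]
  rw [h0, coeff_zero, sp_apply, if_pos rfl, h2] at h1
  have : d * (d - 1) ≠ 0 := Nat.mul_ne_zero (by omega) (by omega)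
  exact this (by exact_mod_cast h1.symm)

lemma wle_d2 (i j : Fin n) :
    WLe (wt n d) (eQ n d (pderiv i (pderiv j (form (X : Expo n d → CA n d))))) 1 := by
  intro e he
  obtain ⟨α, rfl, -, -⟩ := support_d2 i j e he
  rw [weight_ex]
  exact wt_le α

lemma wle_d2_off {i j : Fin n} (hij : i ≠ j) :
    WLe (wt n d) (eQ n d (pderiv i (pderiv j (form (X : Expo n d → CA n d))))) 0 := by
  intro e he
  obtain ⟨α, rfl, hα, hα'⟩ := support_d2 i j e he
  rw [weight_ex, wt_not_sp]
  rintro k rfl
  rw [sp_apply] at hα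
  have hkj : k = j := by
    by_contra h; rw [if_neg h] at hα; exact hα rfl
  subst hkj
  apply hα'
  rw [Finsupp.tsub_apply, sp_apply, if_neg (Ne.symm hij)]
  simp

/-- the leading exponent of the Hessian -/
noncomputable def DH (n d : ℕ) : (Fin n ⊕ Expo n d) →₀ ℕ := ∑ i, D2 n d i

lemma eQ_hess : eQ n d (hess (X : Expo n d → CA n d)) =
    (Matrix.of fun i j : Fin n =>
      eQ n d (pderiv i (pderiv j (form (X : Expo n d → CA n d))))).det := by
  unfold hess
  rw [← AlgEquiv.coe_ringEquiv, ← RingEquiv.coe_toRingHom, RingHom.map_det]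
  rfl

lemma degree_hess_aux (hn : 1 ≤ n) (hd : 2 ≤ d) :
    (mo n d).degree (eQ n d (hess (X : Expo n d → CA n d))) = DH n d ∧
      eQ n d (hess (X : Expo n d → CA n d)) ≠ 0 := by
  classical
  rw [eQ_hess, Matrix.det_apply, ← Finset.add_sum_erase _ _ (Finset.mem_univ (1 : Equiv.Perm (Fin n)))]
  set A := (Equiv.Perm.sign (1 : Equiv.Perm (Fin n)) • ∏ i, (Matrix.of fun i j : Fin n =>
      eQ n d (pderiv i (pderiv j (form (X : Expo n d → CA n d))))) ((1 : Equiv.Perm (Fin n)) i) i)
    with hA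
  set B := ∑ σ ∈ Finset.univ.erase (1 : Equiv.Perm (Fin n)), (Equiv.Perm.sign σ • ∏ i,
      (Matrix.of fun i j : Fin n =>
      eQ n d (pderiv i (pderiv j (form (X : Expo n d → CA n d))))) (σ i) i) with hB
  have hA' : A = ∏ i, eQ n d (pderiv i (pderiv i (form (X : Expo n d → CA n d)))) := by
    rw [hA]; simp
  have hdA : (mo n d).degree A = DH n d := by
    rw [hA', MonomialOrder.degree_prod (fun i _ => d2_ne_zero hd i)]
    exact Finset.sum_congr rfl fun i _ => degree_d2 hd i
  have hA0 : A ≠ 0 := by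
    rw [hA']
    exact Finset.prod_ne_zero_iff.mpr fun i _ => d2_ne_zero hd i
  have hwt : Finsupp.weight (wt n d) (DH n d) = n := by
    unfold DH D2
    rw [map_sum]
    simp [weight_ex, wt_sp]
  have hBw : WLe (wt n d) B (n - 1) := by
    rw [hB]
    apply WLe.sum
    intro σ hσ
    apply WLe.smul
    have hσ1 : σ ≠ 1 := Finset.ne_of_mem_erase hσ
    obtain ⟨i₀, hi₀⟩ : ∃ i, σ i ≠ i := by
      by_contra hcon
      push Not at hcon
      exact hσ1 (Equiv.ext hcon)
    have h1 := WLe.prod (w := wt n d) Finset.univ (fun i => (Matrix.of fun i j : Fin n =>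
      eQ n d (pderiv i (pderiv j (form (X : Expo n d → CA n d))))) (σ i) i)
      (fun i => if i = i₀ then 0 else 1) (fun i _ => by
        simp only [Matrix.of_apply]
        split_ifs with h
        · subst h; exact wle_d2_off hi₀
        · exact wle_d2 _ _)
    refine h1.mono ?_
    rw [← Finset.add_sum_erase _ _ (Finset.mem_univ i₀), if_pos rfl, zero_add]
    have h2 : ∑ x ∈ Finset.univ.erase i₀, (if x = i₀ then 0 else 1) =
        ∑ x ∈ Finset.univ.erase i₀, 1 := by
      apply Finset.sum_congr rfl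
      intro x hx
      rw [if_neg (Finset.ne_of_mem_erase hx)]
    rw [h2]
    simp
  have hlt : (mo n d).degree B ≺[mo n d] (mo n d).degree A := by
    rw [hdA]
    by_cases hB0 : B = 0
    · rw [hB0, MonomialOrder.degree_zero]
      apply wOrder_lt_of_weight_lt
      rw [hwt, map_zero]; omega
    · apply wOrder_lt_of_weight_lt
      rw [hwt]
      have := hBw _ ((mo n d).degree_mem_support hB0)
      omega
  constructor
  · rw [MonomialOrder.degree_add_of_lt hlt, hdA]
  · intro h0
    have h1 : (mo n d).leadingCoeff (A + B) = (mo n d).leadingCoeff A :=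
      MonomialOrder.leadingCoeff_add_of_lt hlt
    rw [h0, MonomialOrder.leadingCoeff_zero] at h1
    exact hA0 ((mo n d).leadingCoeff_eq_zero_iff.mp h1.symm)

lemma degree_hess (hn : 1 ≤ n) (hd : 2 ≤ d) :
    (mo n d).degree (eQ n d (hess (X : Expo n d → CA n d))) = DH n d :=
  (degree_hess_aux hn hd).1

lemma hess_ne_zero (hn : 1 ≤ n) (hd : 2 ≤ d) :
    eQ n d (hess (X : Expo n d → CA n d)) ≠ 0 :=
  (degree_hess_aux hn hd).2

end Pool.Agent.TH211.AF
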